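import Pool.Agent.W786.Max4

/-!
# Flux estimates for the vorticity near a point
-/

set_option autoImplicit false

open MeasureTheory Set Filter
open scoped ENNReal NNReal Topology

namespace Pool.Agent.L5helper86.ED

open Pool.Agent.H708R2.EulerSign Pool.Agent.H708R2.EulerTypeI Pool.Agent.W786.Dir

variable {v : V → V}

/-- Weighted mean of the velocity in the ball of radius `r`. -/
noncomputable def NN (v : V → V) (x : V) (r : ℝ) : ℝ := ∫ z, P 1 z * nrm (v (x + r • z))

/-- Weighted mean of the vorticity in the ball of radius `r`. -/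
noncomputable def JJ (v : V → V) (x : V) (r : ℝ) : ℝ := ∫ z, P 2 z * nrm (vort v (x + r • z))

lemma aff_cont (x : V) (r : ℝ) : Continuous fun z : V => x + r • z := by fun_prop

lemma cproj (k : Fin 3) : ContDiff ℝ 1 (fun z : V => z k) :=
  (ContinuousLinearMap.proj (R := ℝ) (φ := fun _ : Fin 3 => ℝ) k).contDiff

lemma v_aff (hv : ContDiff ℝ 2 v) (x : V) (r : ℝ) (j : Fin 3) :
    ContDiff ℝ 1 (fun z : V => v (x + r • z) j) :=
  comp_aff (S := fun y => v y j) ((contDiff_pi.1 hv j).of_le (by norm_num)) x r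

lemma v_aff_deriv (hv : ContDiff ℝ 2 v) (x : V) (r : ℝ) (j k : Fin 3) (z : V) :
    fderiv ℝ (fun z : V => v (x + r • z) j) z (Pi.single k 1) = r * grad v (x + r • z) j k := by
  have hvj : ContDiff ℝ 1 (fun y => v y j) := (contDiff_pi.1 hv j).of_le (by norm_num)
  rw [fderiv_comp_aff (S := fun y => v y j) hvj, smul_eq_mul]
  congr 1
  have h2 : HasFDerivAt v (fderiv ℝ v (x + r • z)) (x + r • z) :=
    ((hv.differentiable two_ne_zero) _).hasFDerivAt
  have h3 := (hasFDerivAt_pi'.1 h2 j).fderiv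
  rw [h3]
  rfl

lemma P2_deriv (z : V) (k : Fin 3) : fderiv ℝ (P 2) z (Pi.single k 1) = -4 * P 1 z * z k := by
  rw [show P 2 = P (0 + 2) from rfl, P_fderiv 0 z]
  have e : z ⬝ᵥ Pi.single k (1 : ℝ) = z k := by simp
  rw [e]
  norm_num

/-- The mean of a component of the vorticity is bounded by the mean of the velocity. -/
lemma flux_one (hv : ContDiff ℝ 2 v) (x : V) {e : V} (he : nrm e ≤ 1) (r : ℝ) :
    |r * ∫ z, P 2 z * (vort v (x + r • z) ⬝ᵥ e)| ≤ 4 * NN v x r := by
  set w : Fin 3 → V → ℝ := fun j z => v (x + r • z) j with hw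
  have cw : ∀ j, ContDiff ℝ 1 (w j) := fun j => v_aff hv x r j
  have ib : ∀ j k : Fin 3, ∫ z, P 2 z * fderiv ℝ (w j) z (Pi.single k 1)
      = 4 * ∫ z, P 1 z * (z k * w j z) := by
    intro j k
    rw [ibp (P_contDiff 0) (P_supp 1) (cw j), ← integral_neg, ← integral_const_mul]
    refine integral_congr_ae (Eventually.of_forall fun z => ?_)
    show -(fderiv ℝ (P 2) z (Pi.single k 1) * w j z) = 4 * (P 1 z * (z k * w j z))
    rw [P2_deriv]
    ring
  have i1 : ∀ j k : Fin 3, Integrable fun z => P 2 z * fderiv ℝ (w j) z (Pi.single k 1) := by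
    intro j k
    exact ((P_cont 2).mul (((cw j).continuous_fderiv one_ne_zero).clm_apply
      continuous_const)).integrable_of_hasCompactSupport (P_supp 1).mul_right
  have i2 : ∀ j k : Fin 3, Integrable fun z => P 1 z * (z k * w j z) := by
    intro j k
    exact ((P_cont 1).mul ((cproj k).continuous.mul
      (cw j).continuous)).integrable_of_hasCompactSupport (P_supp 0).mul_right
  have key : r * ∫ z, P 2 z * (vort v (x + r • z) ⬝ᵥ e)
      = 4 * ∫ z, P 1 z * (v (x + r • z) ⬝ᵥ cross e z) := by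
    have e1 : r * ∫ z, P 2 z * (vort v (x + r • z) ⬝ᵥ e)
        = e 0 * ((∫ z, P 2 z * fderiv ℝ (w 2) z (Pi.single 1 1))
            - ∫ z, P 2 z * fderiv ℝ (w 1) z (Pi.single 2 1))
          + e 1 * ((∫ z, P 2 z * fderiv ℝ (w 0) z (Pi.single 2 1))
            - ∫ z, P 2 z * fderiv ℝ (w 2) z (Pi.single 0 1))
          + e 2 * ((∫ z, P 2 z * fderiv ℝ (w 1) z (Pi.single 0 1))
            - ∫ z, P 2 z * fderiv ℝ (w 0) z (Pi.single 1 1)) := by
      have s0 : Integrable fun z => e 0 * (P 2 z * fderiv ℝ (w 2) z (Pi.single 1 1)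
          - P 2 z * fderiv ℝ (w 1) z (Pi.single 2 1)) := ((i1 2 1).sub (i1 1 2)).const_mul _
      have s1 : Integrable fun z => e 1 * (P 2 z * fderiv ℝ (w 0) z (Pi.single 2 1)
          - P 2 z * fderiv ℝ (w 2) z (Pi.single 0 1)) := ((i1 0 2).sub (i1 2 0)).const_mul _
      have s2 : Integrable fun z => e 2 * (P 2 z * fderiv ℝ (w 1) z (Pi.single 0 1)
          - P 2 z * fderiv ℝ (w 0) z (Pi.single 1 1)) := ((i1 1 0).sub (i1 0 1)).const_mul _
      have s01 : Integrable fun z => e 0 * (P 2 z * fderiv ℝ (w 2) z (Pi.single 1 1)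
          - P 2 z * fderiv ℝ (w 1) z (Pi.single 2 1))
          + e 1 * (P 2 z * fderiv ℝ (w 0) z (Pi.single 2 1)
          - P 2 z * fderiv ℝ (w 2) z (Pi.single 0 1)) := s0.add s1
      rw [← integral_sub (i1 2 1) (i1 1 2), ← integral_sub (i1 0 2) (i1 2 0),
        ← integral_sub (i1 1 0) (i1 0 1), ← integral_const_mul, ← integral_const_mul,
        ← integral_const_mul, ← integral_const_mul, ← integral_add s0 s1, ← integral_add s01 s2]
      refine integral_congr_ae (Eventually.of_forall fun z => ?_)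
      simp only [hw, v_aff_deriv hv]
      simp only [vort, dotProduct, Fin.sum_univ_three, Matrix.cons_val_zero,
        Matrix.cons_val_one, Matrix.cons_val]
      ring
    have e2 : ∫ z, P 1 z * (v (x + r • z) ⬝ᵥ cross e z)
        = e 0 * ((∫ z, P 1 z * (z 1 * w 2 z)) - ∫ z, P 1 z * (z 2 * w 1 z))
          + e 1 * ((∫ z, P 1 z * (z 2 * w 0 z)) - ∫ z, P 1 z * (z 0 * w 2 z))
          + e 2 * ((∫ z, P 1 z * (z 0 * w 1 z)) - ∫ z, P 1 z * (z 1 * w 0 z)) := by
      have s0 : Integrable fun z => e 0 * (P 1 z * (z 1 * w 2 z) - P 1 z * (z 2 * w 1 z)) :=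
        ((i2 2 1).sub (i2 1 2)).const_mul _
      have s1 : Integrable fun z => e 1 * (P 1 z * (z 2 * w 0 z) - P 1 z * (z 0 * w 2 z)) :=
        ((i2 0 2).sub (i2 2 0)).const_mul _
      have s2 : Integrable fun z => e 2 * (P 1 z * (z 0 * w 1 z) - P 1 z * (z 1 * w 0 z)) :=
        ((i2 1 0).sub (i2 0 1)).const_mul _
      have s01 : Integrable fun z => e 0 * (P 1 z * (z 1 * w 2 z) - P 1 z * (z 2 * w 1 z))
          + e 1 * (P 1 z * (z 2 * w 0 z) - P 1 z * (z 0 * w 2 z)) := s0.add s1
      rw [← integral_sub (i2 2 1) (i2 1 2), ← integral_sub (i2 0 2) (i2 2 0),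
        ← integral_sub (i2 1 0) (i2 0 1), ← integral_const_mul, ← integral_const_mul,
        ← integral_const_mul, ← integral_add s0 s1, ← integral_add s01 s2]
      refine integral_congr_ae (Eventually.of_forall fun z => ?_)
      simp only [hw, cross, dotProduct, Fin.sum_univ_three, Matrix.cons_val_zero,
        Matrix.cons_val_one, Matrix.cons_val]
      ring
    rw [e1, e2]
    simp only [ib]
    ring
  rw [key, abs_mul, abs_of_pos (by norm_num : (0 : ℝ) < 4)]
  refine mul_le_mul_of_nonneg_left ?_ (by norm_num)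
  unfold NN
  rw [← Real.norm_eq_abs]
  have hint : Integrable fun z => P 1 z * nrm (v (x + r • z)) := by
    have h1 : Continuous fun z => nrm (v (x + r • z)) :=
      nrm_cont.comp (hv.continuous.comp (aff_cont x r))
    exact ((P_cont 1).mul h1).integrable_of_hasCompactSupport (P_supp 0).mul_right
  refine norm_integral_le_of_norm_le hint (Eventually.of_forall fun z => ?_)
  rw [Real.norm_eq_abs, abs_mul, abs_of_nonneg (P_nonneg 1 z)]
  rcases lt_or_ge (z ⬝ᵥ z) 1 with hz | hz
  · refine mul_le_mul_of_nonneg_left ?_ (P_nonneg 1 z)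
    refine (dot_le _ _).trans ?_
    have h1 : nrm (cross e z) ≤ 1 :=
      (nrm_cross_le _ _).trans (mul_le_one₀ he (nrm_nonneg _) (nrm_lt_one hz).le)
    exact mul_le_of_le_one_right (nrm_nonneg _) h1
  · have e1 : P 1 z = 0 := P_zero_of hz
    rw [e1]
    simp

/-! ## The vorticity is free of divergence -/

lemma vort_contDiff (hv : ContDiff ℝ 2 v) (k : Fin 3) : ContDiff ℝ 1 fun y => vort v y k := by
  have h := fun i j => grad_contDiff hv i j
  fin_cases k
  · exact (h 2 1).sub (h 1 2)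
  · exact (h 0 2).sub (h 2 0)
  · exact (h 1 0).sub (h 0 1)

lemma vort_div (hv : ContDiff ℝ 2 v) (x : V) :
    ∑ k, fderiv ℝ (fun y => vort v y k) x (Pi.single k 1) = 0 := by
  have hd : ∀ i j, DifferentiableAt ℝ (fun y => grad v y i j) x := fun i j =>
    ((grad_contDiff hv i j).differentiable one_ne_zero) x
  have e0 : fderiv ℝ (fun y => vort v y 0) x
      = fderiv ℝ (fun y => grad v y 2 1) x - fderiv ℝ (fun y => grad v y 1 2) x :=
    fderiv_fun_sub (hd 2 1) (hd 1 2)
  have e1 : fderiv ℝ (fun y => vort v y 1) x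
      = fderiv ℝ (fun y => grad v y 0 2) x - fderiv ℝ (fun y => grad v y 2 0) x :=
    fderiv_fun_sub (hd 0 2) (hd 2 0)
  have e2 : fderiv ℝ (fun y => vort v y 2) x
      = fderiv ℝ (fun y => grad v y 1 0) x - fderiv ℝ (fun y => grad v y 0 1) x :=
    fderiv_fun_sub (hd 1 0) (hd 0 1)
  rw [Fin.sum_univ_three, e0, e1, e2]
  simp only [sub_apply]
  rw [grad_symm hv x 2 1 0, grad_symm hv x 1 2 0, grad_symm hv x 0 2 1]
  ring

end Pool.Agent.L5helper86.ED
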