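import Pool.Agent.L5helper86.ED.S1

/-!
# The mass of the vorticity in small balls
-/

set_option autoImplicit false

open MeasureTheory Set Filter
open scoped ENNReal NNReal Topology

namespace Pool.Agent.L5helper86.ED

open Pool.Agent.H708R2.EulerSign Pool.Agent.H708R2.EulerTypeI Pool.Agent.W786.Dir

variable {v : V → V}

lemma P3_deriv (z w : V) : fderiv ℝ (P 3) z w = -6 * P 2 z * (z ⬝ᵥ w) := by
  rw [show P 3 = P (1 + 2) from rfl, P_fderiv 1 z w]
  norm_num

lemma W_contDiff (hv : ContDiff ℝ 2 v) (x : V) (ρ : ℝ) (k : Fin 3) :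
    ContDiff ℝ 1 fun z : V => vort v (x + ρ • z) k :=
  comp_aff (S := fun y => vort v y k) (vort_contDiff hv k) x ρ

lemma W_cont (hv : ContDiff ℝ 2 v) (x : V) (ρ : ℝ) : Continuous fun z : V => vort v (x + ρ • z) :=
  (vort_cont hv).comp (aff_cont x ρ)

lemma W_div (hv : ContDiff ℝ 2 v) (x z : V) (ρ : ℝ) :
    ∑ k, fderiv ℝ (fun z : V => vort v (x + ρ • z) k) z (Pi.single k 1) = 0 := by
  have h : ∀ k : Fin 3, fderiv ℝ (fun z : V => vort v (x + ρ • z) k) z (Pi.single k 1)
      = ρ * fderiv ℝ (fun y => vort v y k) (x + ρ • z) (Pi.single k 1) := by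
    intro k
    rw [fderiv_comp_aff (S := fun y => vort v y k) (vort_contDiff hv k), smul_eq_mul]
  simp only [h]
  rw [← Finset.mul_sum, vort_div hv, mul_zero]

/-- The divergence theorem with a compactly supported function. -/
lemma div_test (hv : ContDiff ℝ 2 v) (x : V) (ρ : ℝ) {F : V → ℝ} (hF : ContDiff ℝ 1 F)
    (hFc : HasCompactSupport F) :
    ∫ z, fderiv ℝ F z (vort v (x + ρ • z)) = 0 := by
  set W : Fin 3 → V → ℝ := fun k z => vort v (x + ρ • z) k with hW
  have cW : ∀ k, ContDiff ℝ 1 (W k) := fun k => W_contDiff hv x ρ k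
  have i1 : ∀ k : Fin 3, Integrable fun z => F z * fderiv ℝ (W k) z (Pi.single k 1) := by
    intro k
    exact (hF.continuous.mul (((cW k).continuous_fderiv one_ne_zero).clm_apply
      continuous_const)).integrable_of_hasCompactSupport hFc.mul_right
  have cF : ∀ k : Fin 3, Continuous fun z => fderiv ℝ F z (Pi.single k 1) := fun k =>
    (hF.continuous_fderiv one_ne_zero).clm_apply continuous_const
  have i2 : ∀ k : Fin 3, Integrable fun z => fderiv ℝ F z (Pi.single k 1) * W k z := by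
    intro k
    exact ((cF k).mul (cW k).continuous).integrable_of_hasCompactSupport
      (hFc.fderiv_apply (𝕜 := ℝ) (Pi.single k (1 : ℝ))).mul_right
  have h1 : ∑ k, ∫ z, F z * fderiv ℝ (W k) z (Pi.single k 1) = 0 := by
    rw [← integral_finsetSum _ fun k _ => i1 k]
    have : ∀ z, ∑ k, F z * fderiv ℝ (W k) z (Pi.single k 1) = 0 := by
      intro z
      rw [← Finset.mul_sum, W_div hv x z ρ, mul_zero]
    simp only [this, integral_zero]
  have h2 : ∀ k : Fin 3, ∫ z, F z * fderiv ℝ (W k) z (Pi.single k 1)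
      = -∫ z, fderiv ℝ F z (Pi.single k 1) * W k z := fun k => ibp hF hFc (cW k) _
  simp only [h2, Finset.sum_neg_distrib, neg_eq_zero] at h1
  rw [← integral_finsetSum _ fun k _ => i2 k] at h1
  rw [← h1]
  refine integral_congr_ae (Eventually.of_forall fun z => ?_)
  show fderiv ℝ F z (vort v (x + ρ • z)) = ∑ k, fderiv ℝ F z (Pi.single k 1) * W k z
  rw [fderiv_sum_single]
  refine Finset.sum_congr rfl fun k _ => ?_
  rw [mul_comm]

/-- The slab estimate. -/
lemma slab (hv : ContDiff ℝ 2 v) (x : V) {e : V} (he : nrm e = 1) (ρ : ℝ) {ε : ℝ} (hε : 0 < ε) :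
    ∫ z, P 3 z * ((vort v (x + ρ • z) ⬝ᵥ e) / (1 + ((z ⬝ᵥ e) / ε) ^ 2))
      ≤ 3 * Real.pi * ε * JJ v x ρ := by
  set s : V → ℝ := fun z => (z ⬝ᵥ e) / ε with hs
  have cdot : ContDiff ℝ 1 (fun z : V => z ⬝ᵥ e) := by
    simp only [dotProduct]
    exact ContDiff.sum fun i _ => (cproj i).mul contDiff_const
  have cs : ContDiff ℝ 1 s := cdot.div_const ε
  set Φ : V → ℝ := fun z => ε * Real.arctan (s z) with hΦ
  have cΦ : ContDiff ℝ 1 Φ := contDiff_const.mul (Real.contDiff_arctan.comp cs)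
  have dΦ : ∀ z w, fderiv ℝ Φ z w = (w ⬝ᵥ e) / (1 + s z ^ 2) := by
    intro z w
    have h1 : HasFDerivAt (fun z : V => z ⬝ᵥ e) (dotL e) z := by
      have h1 := (dotL e).hasFDerivAt (x := z)
      refine h1.congr_of_eventuallyEq (Eventually.of_forall fun y => ?_)
      simp [dotProduct_comm]
    have h2 : HasFDerivAt s (ε⁻¹ • dotL e) z := by
      have h3 := h1.const_mul ε⁻¹
      refine h3.congr_of_eventuallyEq (Eventually.of_forall fun y => ?_)
      simp only [hs]
      rw [div_eq_inv_mul]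
    have h3 : HasFDerivAt Φ (ε • ((1 / (1 + s z ^ 2)) • (ε⁻¹ • dotL e))) z :=
      (h2.arctan).const_mul ε
    rw [h3.fderiv]
    simp only [FunLike.coe_smul, Pi.smul_apply, smul_eq_mul, dotL_apply]
    rw [dotProduct_comm e w]
    field_simp
  set F : V → ℝ := fun z => P 3 z * Φ z with hF
  have cF : ContDiff ℝ 1 F := (P_contDiff 1).mul cΦ
  have sF : HasCompactSupport F := (P_supp 2).mul_right
  have dF : ∀ z w, fderiv ℝ F z w = P 3 z * ((w ⬝ᵥ e) / (1 + s z ^ 2))
      + Φ z * (-6 * P 2 z * (z ⬝ᵥ w)) := by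
    intro z w
    have h1 : fderiv ℝ F z = P 3 z • fderiv ℝ Φ z + Φ z • fderiv ℝ (P 3) z :=
      fderiv_fun_mul (((P_contDiff 1).differentiable one_ne_zero) z)
        ((cΦ.differentiable one_ne_zero) z)
    rw [h1]
    simp only [add_apply, FunLike.coe_smul, Pi.smul_apply, smul_eq_mul, P3_deriv, dΦ]
  have h0 := div_test hv x ρ cF sF
  simp only [dF] at h0
  have hWc := W_cont hv x ρ
  have hdotc : ∀ {f g : V → V}, Continuous f → Continuous g →
      Continuous fun z => f z ⬝ᵥ g z := by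
    intro f g hf hg
    simp only [dotProduct]
    exact continuous_finsetSum _ fun i _ =>
      ((continuous_apply i).comp hf).mul ((continuous_apply i).comp hg)
  have i1 : Integrable fun z => P 3 z * ((vort v (x + ρ • z) ⬝ᵥ e) / (1 + s z ^ 2)) := by
    refine Continuous.integrable_of_hasCompactSupport ?_ (P_supp 2).mul_right
    refine (P_cont 3).mul ((hdotc hWc continuous_const).div
      (continuous_const.add (cs.continuous.pow 2)) fun z => ?_)
    positivity
  have i2 : Integrable fun z => Φ z * (-6 * P 2 z * (z ⬝ᵥ vort v (x + ρ • z))) := by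
    refine Continuous.integrable_of_hasCompactSupport ?_ ?_
    · exact cΦ.continuous.mul ((continuous_const.mul (P_cont 2)).mul (hdotc continuous_id hWc))
    · exact (((P_supp 1).mul_left (f' := P 2) (f := fun _ => (-6 : ℝ))).mul_right).mul_left
  rw [integral_add i1 i2] at h0
  have h1 : ∫ z, P 3 z * ((vort v (x + ρ • z) ⬝ᵥ e) / (1 + s z ^ 2))
      = -∫ z, Φ z * (-6 * P 2 z * (z ⬝ᵥ vort v (x + ρ • z))) := by linarith
  rw [h1, ← integral_neg]
  unfold JJ
  rw [← integral_const_mul]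
  have hJi : Integrable fun z => P 2 z * nrm (vort v (x + ρ • z)) := J_cont hv 1 ρ
  have i3 : Integrable fun z => -(Φ z * (-6 * P 2 z * (z ⬝ᵥ vort v (x + ρ • z)))) := i2.neg
  refine integral_mono i3 (hJi.const_mul _) fun z => ?_
  show -(Φ z * (-6 * P 2 z * (z ⬝ᵥ vort v (x + ρ • z))))
    ≤ 3 * Real.pi * ε * (P 2 z * nrm (vort v (x + ρ • z)))
  have hp := P_nonneg 2 z
  have hn := nrm_nonneg (vort v (x + ρ • z))
  rcases lt_or_ge (z ⬝ᵥ z) 1 with hz | hz
  · have b1 : |Φ z| ≤ ε * (Real.pi / 2) := by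
      rw [hΦ, abs_mul, abs_of_pos hε]
      refine mul_le_mul_of_nonneg_left ?_ hε.le
      exact (abs_le.2 ⟨(Real.neg_pi_div_two_lt_arctan _).le, (Real.arctan_lt_pi_div_two _).le⟩)
    have b2 : |z ⬝ᵥ vort v (x + ρ • z)| ≤ nrm (vort v (x + ρ • z)) :=
      (dot_le _ _).trans (mul_le_of_le_one_left hn (nrm_lt_one hz).le)
    have b3 : Φ z * (z ⬝ᵥ vort v (x + ρ • z))
        ≤ ε * (Real.pi / 2) * nrm (vort v (x + ρ • z)) := by
      refine (le_abs_self _).trans ?_
      rw [abs_mul]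
      have hpi := Real.pi_pos
      gcongr
    calc -(Φ z * (-6 * P 2 z * (z ⬝ᵥ vort v (x + ρ • z))))
        = 6 * P 2 z * (Φ z * (z ⬝ᵥ vort v (x + ρ • z))) := by ring
      _ ≤ 6 * P 2 z * (ε * (Real.pi / 2) * nrm (vort v (x + ρ • z))) := by gcongr
      _ = _ := by ring
  · have e2 : P 2 z = 0 := P_zero_of hz
    rw [e2]
    simp

/-- **The mass of the vorticity in small balls.** -/
lemma morrey (hv : ContDiff ℝ 2 v) (x : V) {e : V} (he : nrm e = 1) {ρ : ℝ}
    (hcone : ∀ z : V, z ⬝ᵥ z < 1 →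
      nrm (vort v (x + ρ • z)) ≤ 2 * (vort v (x + ρ • z) ⬝ᵥ e)) {ε : ℝ} (hε : 0 < ε)
    (hε2 : ε ≤ 1 / 2) : ε ^ 2 * JJ v x (ε * ρ) ≤ 90 * JJ v x ρ := by
  have hs := slab hv x he ρ hε
  set f : V → ℝ := fun y => P 2 (ε⁻¹ • y) * nrm (vort v (x + ρ • y)) with hf
  have h1 : JJ v x (ε * ρ) = (ε ^ 3)⁻¹ * ∫ y, f y := by
    have h2 := Measure.integral_comp_smul (volume : Measure V) f ε
    have h3 : Module.finrank ℝ V = 3 := by simp
    rw [h3, abs_of_pos (by positivity), smul_eq_mul] at h2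
    rw [← h2]
    unfold JJ
    refine integral_congr_ae (Eventually.of_forall fun z => ?_)
    simp only [hf, smul_smul]
    rw [inv_mul_cancel₀ hε.ne', one_smul, mul_comm ρ ε]
  have hdotc : Continuous fun z : V => z ⬝ᵥ e := by
    simp only [dotProduct]
    exact continuous_finsetSum _ fun i _ => (continuous_apply i).mul continuous_const
  have hWc := W_cont hv x ρ
  have hWe : Continuous fun z : V => vort v (x + ρ • z) ⬝ᵥ e := by
    simp only [dotProduct]
    exact continuous_finsetSum _ fun i _ => ((continuous_apply i).comp hWc).mul continuous_const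
  have i1 : Integrable fun z => P 3 z *
      ((vort v (x + ρ • z) ⬝ᵥ e) / (1 + ((z ⬝ᵥ e) / ε) ^ 2)) := by
    refine Continuous.integrable_of_hasCompactSupport ?_ (P_supp 2).mul_right
    refine (P_cont 3).mul (hWe.div (continuous_const.add ((hdotc.div_const ε).pow 2)) fun z => ?_)
    positivity
  have h4 : ∫ y, f y ≤ 256 / 27 * ∫ z, P 3 z *
      ((vort v (x + ρ • z) ⬝ᵥ e) / (1 + ((z ⬝ᵥ e) / ε) ^ 2)) := by
    rw [← integral_const_mul]
    refine integral_mono_of_nonneg (Eventually.of_forall fun y =>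
      mul_nonneg (P_nonneg _ _) (nrm_nonneg _)) (i1.const_mul _) (Eventually.of_forall fun y => ?_)
    show P 2 (ε⁻¹ • y) * nrm (vort v (x + ρ • y)) ≤ 256 / 27 * (P 3 y *
      ((vort v (x + ρ • y) ⬝ᵥ e) / (1 + ((y ⬝ᵥ e) / ε) ^ 2)))
    set n := nrm (vort v (x + ρ • y)) with hn
    have hn0 : 0 ≤ n := nrm_nonneg _
    have hyy : (ε⁻¹ • y) ⬝ᵥ (ε⁻¹ • y) = (y ⬝ᵥ y) / ε ^ 2 := by
      rw [smul_dotProduct, dotProduct_smul, smul_eq_mul, smul_eq_mul]
      field_simp
    rcases lt_or_ge (y ⬝ᵥ y) 1 with hz | hz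
    · have hc := hcone y hz
      have hWe0 : 0 ≤ vort v (x + ρ • y) ⬝ᵥ e := by linarith
      rcases lt_or_ge ((y ⬝ᵥ y) / ε ^ 2) 1 with hy | hy
      · rw [div_lt_one (by positivity)] at hy
        have hy0 := dot_self_nonneg y
        have h5 : (y ⬝ᵥ y) ≤ 1 / 4 := by
          have : ε ^ 2 ≤ (1 / 2) ^ 2 := by gcongr
          linarith
        have p2 : P 2 (ε⁻¹ • y) ≤ 1 := by
          unfold P
          rw [hyy]
          refine pow_le_one₀ (le_max_right _ _) (max_le ?_ zero_le_one)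
          have : 0 ≤ (y ⬝ᵥ y) / ε ^ 2 := by positivity
          linarith
        have p3 : 27 / 64 ≤ P 3 y := by
          unfold P
          rw [max_eq_left (by linarith)]
          have : (3 / 4 : ℝ) ^ 3 ≤ (1 - y ⬝ᵥ y) ^ 3 := by
            refine pow_le_pow_left₀ (by norm_num) (by linarith) 3
          norm_num at this
          exact this
        have hq : ((y ⬝ᵥ e) / ε) ^ 2 ≤ 1 := by
          have h6 := dot_le y e
          rw [he, mul_one] at h6
          have h7 : (y ⬝ᵥ e) ^ 2 ≤ y ⬝ᵥ y := by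
            rw [← nrm_sq, ← sq_abs]
            exact pow_le_pow_left₀ (abs_nonneg _) h6 2
          rw [div_pow, div_le_one (by positivity)]
          linarith
        have hd : n / 4 ≤ (vort v (x + ρ • y) ⬝ᵥ e) / (1 + ((y ⬝ᵥ e) / ε) ^ 2) := by
          rw [le_div_iff₀ (by positivity)]
          nlinarith
        calc P 2 (ε⁻¹ • y) * n ≤ 1 * n := by gcongr
          _ = 256 / 27 * (27 / 64 * (n / 4)) := by ring
          _ ≤ _ := by gcongr
      · have : P 2 (ε⁻¹ • y) = 0 := P_zero_of (n := 1) (by rw [hyy]; exact hy)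
        rw [this, zero_mul]
        have := P_nonneg 3 y
        positivity
    · have e3 : P 3 y = 0 := P_zero_of hz
      have : P 2 (ε⁻¹ • y) = 0 := P_zero_of (n := 1) (by
        rw [hyy, le_div_iff₀ (by positivity)]
        have : ε ^ 2 ≤ 1 := pow_le_one₀ hε.le (by linarith)
        linarith)
      rw [this, e3]
      simp
  have hJ0 : 0 ≤ JJ v x ρ := integral_nonneg fun z => mul_nonneg (P_nonneg _ _) (nrm_nonneg _)
  have hpi := Real.pi_lt_d2
  rw [h1]
  have h5 : ∫ y, f y ≤ 90 * ε * JJ v x ρ := by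
    refine h4.trans ?_
    calc 256 / 27 * ∫ z, P 3 z * ((vort v (x + ρ • z) ⬝ᵥ e) / (1 + ((z ⬝ᵥ e) / ε) ^ 2))
        ≤ 256 / 27 * (3 * Real.pi * ε * JJ v x ρ) := by gcongr
      _ ≤ 256 / 27 * (3 * 3.15 * ε * JJ v x ρ) := by gcongr
      _ ≤ 90 * ε * JJ v x ρ := by
          have : 0 ≤ ε * JJ v x ρ := by positivity
          nlinarith
  calc ε ^ 2 * ((ε ^ 3)⁻¹ * ∫ y, f y) ≤ ε ^ 2 * ((ε ^ 3)⁻¹ * (90 * ε * JJ v x ρ)) := by gcongr
    _ = 90 * JJ v x ρ := by field_simp

end Pool.Agent.L5helper86.ED
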