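import Pool.Agent.L5helper86.ED.S2

/-!
# The energy bounds the means of the velocity
-/

set_option autoImplicit false

open MeasureTheory Set Filter
open scoped ENNReal NNReal Topology

namespace Pool.Agent.L5helper86.ED

open Pool.Agent.H708R2 Pool.Agent.H708R2.EulerSign Pool.Agent.H708R2.EulerTypeI Pool.Agent.W786.Dir

variable {v : V → V}

/-- The square of the `L²` norm over the torus. -/
noncomputable def en2 (v : V → V) : ℝ :=
  ∫ y in Icc (fun _ : Fin 3 => -Real.pi) (fun _ => Real.pi), v y ⬝ᵥ v y

lemma dom_mem (m : V) : m ∈ Dom ↔ ∀ i, 0 ≤ m i ∧ m i < 2 * Real.pi := by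
  have hpi := Real.pi_pos
  have h : ∀ j, m j = bas.repr m j * (2 * Real.pi) := by
    intro j
    have h1 := congrFun (bas.sum_repr m) j
    simp only [bas_apply, Finset.sum_apply, Pi.smul_apply, smul_eq_mul, Pi.single_apply] at h1
    rw [← h1]
    simp
  rw [ZSpan.mem_fundamentalDomain]
  refine forall_congr' fun i => ?_
  rw [h i, mem_Ico]
  constructor
  · rintro ⟨h1, h2⟩
    exact ⟨by positivity, by nlinarith⟩
  · rintro ⟨h1, h2⟩
    constructor
    · by_contra hcon
      push Not at hcon
      nlinarith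
    · by_contra hcon
      push Not at hcon
      nlinarith

/-- The period cell with corner `c`. -/
def Cell (c : V) : Set V := {y | ∀ i, c i ≤ y i ∧ y i < c i + 2 * Real.pi}

lemma cell_eq (c : V) : Cell c = (fun y => y + c) '' Dom := by
  ext y
  constructor
  · intro hy
    refine ⟨y - c, (dom_mem _).2 fun i => ?_, by simp⟩
    have := hy i
    simp only [Pi.sub_apply]
    exact ⟨by linarith [this.1], by linarith [this.2]⟩
  · rintro ⟨z, hz, rfl⟩ i
    have := (dom_mem z).1 hz i
    simp only [Pi.add_apply]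
    exact ⟨by linarith [this.1], by linarith [this.2]⟩

lemma cell_fd (c : V) : IsAddFundamentalDomain EulerSign.Lat (Cell c) (volume : Measure V) := by
  rw [cell_eq]
  refine image_fd ?_ (by fun_prop) fun g _ x => ?_
  · exact (Equiv.addRight c).bijective
  · abel

lemma cell_integral (c c' : V) {q : V → ℝ} (hq : Periodic3 q) :
    ∫ y in Cell c, q y = ∫ y in Cell c', q y := by
  refine (cell_fd c).setIntegral_eq (cell_fd c') fun g x => ?_
  have h2 : (g +ᵥ x : V) = x + g := by rw [add_comm]; rfl
  rw [h2, hq.lat g.2]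

lemma cell_pi : ∫ y in Cell (fun _ => -Real.pi), v y ⬝ᵥ v y = en2 v := by
  unfold en2
  have h1 : Cell (fun _ => -Real.pi)
      = Set.pi univ fun _ : Fin 3 => Ico (-Real.pi) Real.pi := by
    ext y
    simp only [Cell, mem_ofPred_eq, Set.mem_pi, mem_univ, true_implies, mem_Ico]
    refine forall_congr' fun i => ?_
    rw [show -Real.pi + 2 * Real.pi = Real.pi by ring]
  rw [h1]
  exact setIntegral_congr_set (Measure.univ_pi_Ico_ae_eq_Icc)

lemma q_cont (hv : Continuous v) : Continuous fun y => v y ⬝ᵥ v y := by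
  simp only [dotProduct]
  exact continuous_finsetSum _ fun i _ =>
    ((continuous_apply i).comp hv).mul ((continuous_apply i).comp hv)

lemma q_per (hp : Periodic3 v) : Periodic3 fun y => v y ⬝ᵥ v y := by
  intro i x
  simp only
  rw [hp i x]

lemma en2_nonneg : 0 ≤ en2 v := integral_nonneg fun _ => dot_self_nonneg _

lemma ball_le (hv : Continuous v) (hp : Periodic3 v) (x : V) {R : ℝ} (hR : R ≤ Real.pi) :
    ∫ y in Metric.ball x R, v y ⬝ᵥ v y ≤ en2 v := by
  have hsub : Metric.ball x R ⊆ Cell (fun i => x i - Real.pi) := by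
    intro y hy i
    rw [Metric.mem_ball, dist_eq_norm] at hy
    have h1 : ‖(y - x) i‖ < R := (norm_le_pi_norm (y - x) i).trans_lt hy
    rw [Real.norm_eq_abs, Pi.sub_apply, abs_lt] at h1
    exact ⟨by linarith [h1.1], by linarith [h1.2]⟩
  rw [← cell_pi, ← cell_integral (fun i => x i - Real.pi) (fun _ => -Real.pi) (q_per hp)]
  refine setIntegral_mono_set ?_ (Eventually.of_forall fun y => dot_self_nonneg _)
    hsub.eventuallyLE
  have hb : Bornology.IsBounded (Cell fun i => x i - Real.pi) := by
    refine (Metric.isBounded_closedBall (x := x) (r := Real.pi)).subset fun y hy => ?_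
    rw [Metric.mem_closedBall, dist_eq_norm, pi_norm_le_iff_of_nonneg Real.pi_pos.le]
    intro i
    have := hy i
    rw [Real.norm_eq_abs, Pi.sub_apply, abs_le]
    exact ⟨by linarith [this.1], by linarith [this.2]⟩
  exact ((q_cont hv).continuousOn.integrableOn_compact hb.isCompact_closure).mono_set
    subset_closure

/-- Change of variables. -/
lemma scaled (hv : Continuous v) (hp : Periodic3 v) (x : V) {R : ℝ} (hR0 : 0 < R)
    (hR : R ≤ Real.pi) :
    ∫ z, P 1 z * (v (x + R • z) ⬝ᵥ v (x + R • z)) ≤ (R ^ 3)⁻¹ * en2 v := by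
  set q : V → ℝ := fun y => v y ⬝ᵥ v y with hq
  have hqc : Continuous q := q_cont hv
  set g : V → ℝ := (Metric.ball x R).indicator q with hg
  have h1 : ∫ z, g (x + R • z) = (R ^ 3)⁻¹ * ∫ y in Metric.ball x R, q y := by
    have h2 := Measure.integral_comp_smul (volume : Measure V) (fun y => g (x + y)) R
    have h3 : Module.finrank ℝ V = 3 := by simp
    rw [h3, abs_of_pos (by positivity), smul_eq_mul] at h2
    rw [h2, integral_add_left_eq_self (fun y => g y) x, hg,
      integral_indicator Metric.isOpen_ball.measurableSet]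
  have hgi : Integrable fun z => g (x + R • z) := by
    have h2 : Integrable g := by
      rw [hg, integrable_indicator_iff Metric.isOpen_ball.measurableSet]
      exact (hqc.continuousOn.integrableOn_compact (isCompact_closedBall x R)).mono_set
        Metric.ball_subset_closedBall
    have h3 : Integrable fun y => g (x + y) := h2.comp_add_left x
    exact h3.comp_smul hR0.ne'
  have h2 : ∫ z, P 1 z * q (x + R • z) ≤ ∫ z, g (x + R • z) := by
    refine integral_mono_of_nonneg (Eventually.of_forall fun z =>
      mul_nonneg (P_nonneg _ _) (dot_self_nonneg _)) hgi (Eventually.of_forall fun z => ?_)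
    show P 1 z * q (x + R • z) ≤ g (x + R • z)
    have hq0 : 0 ≤ q (x + R • z) := dot_self_nonneg _
    rcases lt_or_ge (z ⬝ᵥ z) 1 with hz | hz
    · have hmem : x + R • z ∈ Metric.ball x R := by
        rw [Metric.mem_ball, dist_eq_norm, add_sub_cancel_left, norm_smul, Real.norm_eq_abs,
          abs_of_pos hR0]
        have h4 : ‖z‖ < 1 := by
          rw [pi_norm_lt_iff one_pos]
          intro i
          exact (abs_le_nrm z i).trans_lt (nrm_lt_one hz)
        exact mul_lt_of_lt_one_right hR0 h4
      rw [hg, indicator_of_mem hmem]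
      refine mul_le_of_le_one_left hq0 ?_
      unfold P
      refine pow_le_one₀ (le_max_right _ _) (max_le ?_ zero_le_one)
      have := dot_self_nonneg z
      linarith
    · have e1 : P 1 z = 0 := P_zero_of hz
      rw [e1, zero_mul]
      exact indicator_nonneg (fun y _ => dot_self_nonneg _) _
  refine h2.trans ?_
  rw [h1]
  exact mul_le_mul_of_nonneg_left (ball_le hv hp x hR) (by positivity)

/-- The mean of the velocity in terms of the energy. -/
lemma NN_le (hv : Continuous v) (hp : Periodic3 v) (x : V) {R E : ℝ} (hR0 : 0 < R)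
    (hR : R ≤ Real.pi) (hE : 0 < E) (hvE : en2 v ≤ E) :
    NN v x R ≤ Real.sqrt (∫ z, P 1 z) * Real.sqrt (E / R ^ 3) := by
  have hI : 0 < ∫ z, P 1 z := P_int_pos 0
  set I := ∫ z, P 1 z with hIdef
  set M := E / R ^ 3 with hM
  have hM0 : 0 < M := by positivity
  set lam := Real.sqrt (M / I) with hlam
  have hlam0 : 0 < lam := Real.sqrt_pos.2 (by positivity)
  have hn : Continuous fun z => nrm (v (x + R • z)) := nrm_cont.comp (hv.comp (aff_cont x R))
  have hq : Continuous fun z => v (x + R • z) ⬝ᵥ v (x + R • z) :=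
    (q_cont hv).comp (aff_cont x R)
  have i1 : Integrable fun z => P 1 z * nrm (v (x + R • z)) :=
    ((P_cont 1).mul hn).integrable_of_hasCompactSupport (P_supp 0).mul_right
  have i2 : Integrable fun z => P 1 z * (v (x + R • z) ⬝ᵥ v (x + R • z)) :=
    ((P_cont 1).mul hq).integrable_of_hasCompactSupport (P_supp 0).mul_right
  have h1 : NN v x R ≤ lam / 2 * I + 1 / (2 * lam) * M := by
    have h2 : NN v x R ≤ ∫ z, (lam / 2 * P 1 z
        + 1 / (2 * lam) * (P 1 z * (v (x + R • z) ⬝ᵥ v (x + R • z)))) := by
      unfold NN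
      refine integral_mono i1 (((P_integrable 0).const_mul _).add (i2.const_mul _)) fun z => ?_
      show P 1 z * nrm (v (x + R • z)) ≤ lam / 2 * P 1 z
        + 1 / (2 * lam) * (P 1 z * (v (x + R • z) ⬝ᵥ v (x + R • z)))
      rw [← nrm_sq]
      set n := nrm (v (x + R • z)) with hn
      have hp0 := P_nonneg 1 z
      have h3 : n ≤ lam / 2 + 1 / (2 * lam) * n ^ 2 := by
        have h4 : lam / 2 + 1 / (2 * lam) * n ^ 2 - n = (lam - n) ^ 2 / (2 * lam) := by
          field_simp
          ring
        have h5 : 0 ≤ (lam - n) ^ 2 / (2 * lam) := by positivity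
        linarith
      nlinarith [mul_le_mul_of_nonneg_left h3 hp0]
    refine h2.trans ?_
    have i3 : Integrable fun z => lam / 2 * P 1 z := (P_integrable 0).const_mul _
    have i4 : Integrable fun z => 1 / (2 * lam) * (P 1 z * (v (x + R • z) ⬝ᵥ v (x + R • z))) :=
      i2.const_mul _
    rw [integral_add i3 i4, integral_const_mul, integral_const_mul]
    have h3 := scaled hv hp x hR0 hR
    have h4 : (R ^ 3)⁻¹ * en2 v ≤ M := by
      rw [hM, div_eq_inv_mul]
      exact mul_le_mul_of_nonneg_left hvE (by positivity)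
    have h5 := h3.trans h4
    have : 0 ≤ 1 / (2 * lam) := by positivity
    have := mul_le_mul_of_nonneg_left h5 this
    linarith
  refine h1.trans (le_of_eq ?_)
  have hs : lam ^ 2 = M / I := Real.sq_sqrt (by positivity)
  have hlI : lam = Real.sqrt M / Real.sqrt I := Real.sqrt_div hM0.le I
  have hsI : Real.sqrt I ^ 2 = I := Real.sq_sqrt hI.le
  have hsM : Real.sqrt M ^ 2 = M := Real.sq_sqrt hM0.le
  have hsI0 : 0 < Real.sqrt I := Real.sqrt_pos.2 hI
  have hsM0 : 0 < Real.sqrt M := Real.sqrt_pos.2 hM0
  rw [hlI]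
  set a := Real.sqrt I
  set b := Real.sqrt M
  rw [← hsI, ← hsM]
  field_simp
  ring

end Pool.Agent.L5helper86.ED
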