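import Pool.Agent.L5helper86.ED.S3

/-!
# The stretching rate at a point of maximal vorticity with coherent directions
-/

set_option autoImplicit false

open MeasureTheory Set Filter
open scoped ENNReal NNReal Topology

namespace Pool.Agent.L5helper86.ED

open Pool.Agent.H708R2 Pool.Agent.H708R2.EulerSign Pool.Agent.H708R2.EulerTypeI Pool.Agent.W786.Dir

variable {v : V → V}

/-- The direction of the vorticity near `x` is (one-sided) Hölder continuous at `x` with exponent
`β` on the length scale `1 / G`: for `|y - x| ≤ 1 / G` the angle between the vorticities at `x` and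
`y` is at most `90` degrees and its sine is at most `(G |y - x|) ^ β`. -/
def Coh (β G : ℝ) (v : V → V) (x : V) : Prop :=
  ∀ y : V, nrm (y - x) ≤ 1 / G → 0 ≤ vort v x ⬝ᵥ vort v y ∧
    nrm (crossProduct (vort v x) (vort v y)) ≤
      (G * nrm (y - x)) ^ β * (nrm (vort v x) * nrm (vort v y))

lemma cross_eq (a b : V) : cross a b = crossProduct a b := by
  rw [cross_apply]; rfl

lemma cross_smul_left (c : ℝ) (a b : V) : cross (c • a) b = c • cross a b := by
  rw [cross_eq, cross_eq, map_smul]; rfl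

lemma lagrange (a b : V) : (a ⬝ᵥ b) ^ 2 + nrm (cross a b) ^ 2 = nrm a ^ 2 * nrm b ^ 2 := by
  rw [nrm_sq, nrm_sq, nrm_sq]
  simp only [cross, dotProduct, Fin.sum_univ_three, Matrix.cons_val_zero,
    Matrix.cons_val_one, Matrix.cons_val]
  ring

lemma JJ_nonneg (v : V → V) (x : V) (r : ℝ) : 0 ≤ JJ v x r :=
  integral_nonneg fun _ => mul_nonneg (P_nonneg _ _) (nrm_nonneg _)

lemma NN_nonneg (v : V → V) (x : V) (r : ℝ) : 0 ≤ NN v x r :=
  integral_nonneg fun _ => mul_nonneg (P_nonneg _ _) (nrm_nonneg _)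

/-- The mean of the vorticity in a cone. -/
lemma J_le (hv : ContDiff ℝ 2 v) (x : V) {e : V} (he : nrm e = 1) {ρ : ℝ} (hρ : 0 < ρ)
    (hcone : ∀ z : V, z ⬝ᵥ z < 1 →
      nrm (vort v (x + ρ • z)) ≤ 2 * (vort v (x + ρ • z) ⬝ᵥ e)) :
    JJ v x ρ ≤ 8 / ρ * NN v x ρ := by
  have hWc := W_cont hv x ρ
  have hWe : Continuous fun z : V => vort v (x + ρ • z) ⬝ᵥ e := by
    simp only [dotProduct]
    exact continuous_finsetSum _ fun i _ => ((continuous_apply i).comp hWc).mul continuous_const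
  have i1 : Integrable fun z => P 2 z * (vort v (x + ρ • z) ⬝ᵥ e) :=
    ((P_cont 2).mul hWe).integrable_of_hasCompactSupport (P_supp 1).mul_right
  have h1 : JJ v x ρ ≤ 2 * ∫ z, P 2 z * (vort v (x + ρ • z) ⬝ᵥ e) := by
    rw [← integral_const_mul]
    refine integral_mono (J_cont hv 1 ρ) (i1.const_mul 2) fun z => ?_
    show P 2 z * nrm (vort v (x + ρ • z)) ≤ 2 * (P 2 z * (vort v (x + ρ • z) ⬝ᵥ e))
    rcases lt_or_ge (z ⬝ᵥ z) 1 with hz | hz
    · have := mul_le_mul_of_nonneg_left (hcone z hz) (P_nonneg 2 z)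
      linarith
    · have e2 : P 2 z = 0 := P_zero_of hz
      rw [e2]
      simp
  have h2 := (abs_le.1 (flux_one hv x he.le ρ)).2
  rw [div_mul_eq_mul_div, le_div_iff₀ hρ]
  nlinarith

/-- The mean of the rate. -/
lemma A_le (hv : ContDiff ℝ 2 v) (x : V) {e : V} (he : nrm e ≤ 1) {R : ℝ} (hR : 0 < R) :
    |∫ z, P 3 z * rate v e (x + R • z)| ≤ 6 / R * NN v x R := by
  have hvj : ∀ j, ContDiff ℝ 1 fun y => v y j := fun j =>
    (contDiff_pi.1 hv j).of_le (by norm_num)
  set w : V → ℝ := fun y => ∑ j, e j * v y j with hw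
  have cw : ContDiff ℝ 1 w := ContDiff.sum fun j _ => contDiff_const.mul (hvj j)
  set δ : V → ℝ := fun z => w (x + R • z) with hδ
  have cδ : ContDiff ℝ 1 δ := comp_aff cw x R
  have dδ : ∀ z, fderiv ℝ δ z e = R * rate v e (x + R • z) := by
    intro z
    rw [hδ, fderiv_comp_aff cw, smul_eq_mul]
    congr 1
    have h2 : HasFDerivAt v (fderiv ℝ v (x + R • z)) (x + R • z) :=
      ((hv.differentiable two_ne_zero) _).hasFDerivAt
    have h3 : HasFDerivAt w (∑ j, e j • ((ContinuousLinearMap.proj j : V →L[ℝ] ℝ) ∘L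
        fderiv ℝ v (x + R • z))) (x + R • z) :=
      HasFDerivAt.fun_sum fun j _ => (hasFDerivAt_pi'.1 h2 j).const_mul (e j)
    rw [h3.fderiv]
    have h4 : fderiv ℝ v (x + R • z) e = ∑ k, e k • fderiv ℝ v (x + R • z) (Pi.single k 1) := by
      conv_lhs => rw [show e = ∑ k, e k • (Pi.single k 1 : V) by
        ext i; simp [Finset.sum_apply, Pi.single_apply]]
      rw [map_sum]
      simp
    simp only [FunLike.coe_sum, Finset.sum_apply, FunLike.coe_smul, Pi.smul_apply,
      ContinuousLinearMap.comp_apply, smul_eq_mul, h4, rate, dotProduct, Matrix.mulVec, grad,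
      Matrix.of_apply]
    refine Finset.sum_congr rfl fun j _ => ?_
    simp [mul_comm]
  have h1 : R * ∫ z, P 3 z * rate v e (x + R • z) = -∫ z, fderiv ℝ (P 3) z e * δ z := by
    rw [← ibp (P_contDiff 1) (P_supp 2) cδ e, ← integral_const_mul]
    refine integral_congr_ae (Eventually.of_forall fun z => ?_)
    simp only [dδ]
    ring
  have hn : Continuous fun z => nrm (v (x + R • z)) :=
    nrm_cont.comp (hv.continuous.comp (aff_cont x R))
  have i1 : Integrable fun z => P 1 z * nrm (v (x + R • z)) :=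
    ((P_cont 1).mul hn).integrable_of_hasCompactSupport (P_supp 0).mul_right
  have h2 : |∫ z, fderiv ℝ (P 3) z e * δ z| ≤ 6 * NN v x R := by
    unfold NN
    rw [← integral_const_mul, ← Real.norm_eq_abs]
    refine norm_integral_le_of_norm_le (i1.const_mul _) (Eventually.of_forall fun z => ?_)
    rw [Real.norm_eq_abs, abs_mul, P3_deriv]
    have hp1 := P_nonneg 1 z
    have hp2 := P_nonneg 2 z
    have hp21 : P 2 z ≤ P 1 z := P_le z
    rcases lt_or_ge (z ⬝ᵥ z) 1 with hz | hz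
    · have hz1 := (nrm_lt_one hz).le
      have b1 : |z ⬝ᵥ e| ≤ 1 := (dot_le _ _).trans (mul_le_one₀ hz1 (nrm_nonneg _) he)
      have b2 : |δ z| ≤ nrm (v (x + R • z)) := by
        have e1 : δ z = e ⬝ᵥ v (x + R • z) := rfl
        rw [e1]
        exact (dot_le _ _).trans (mul_le_of_le_one_left (nrm_nonneg _) he)
      have e3 : |-6 * P 2 z * (z ⬝ᵥ e)| = 6 * P 2 z * |z ⬝ᵥ e| := by
        rw [abs_mul, abs_mul, abs_of_nonneg hp2]
        norm_num
      rw [e3]
      calc 6 * P 2 z * |z ⬝ᵥ e| * |δ z| ≤ 6 * P 1 z * 1 * nrm (v (x + R • z)) := by gcongr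
        _ = 6 * (P 1 z * nrm (v (x + R • z))) := by ring
    · have e3 : P 2 z = 0 := P_zero_of hz
      rw [e3]
      simp only [mul_zero, zero_mul, abs_zero]
      have := nrm_nonneg (v (x + R • z))
      positivity
  rw [div_mul_eq_mul_div, le_div_iff₀ hR, mul_comm, ← abs_of_pos hR, ← abs_mul, abs_of_pos hR, h1,
    abs_neg]
  exact h2

/-- The derivative of the mean of the rate. -/
lemma dA_le (hv : ContDiff ℝ 2 v) (hdiv : ∀ x, divergence v x = 0) (x : V) {e : V}
    (he : nrm e ≤ 1) (r : ℝ) {η : ℝ} (hη : ∀ z : V, z ⬝ᵥ z < 1 →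
      nrm (cross e (vort v (x + r • z))) ≤ η * nrm (vort v (x + r • z))) :
    |r * ∫ z, P 3 z * fderiv ℝ (rate v e) (x + r • z) z| ≤ 6 * η * JJ v x r := by
  rw [rate_formula hv hdiv e x r, abs_mul, abs_of_pos (by norm_num : (0 : ℝ) < 6), mul_assoc]
  refine mul_le_mul_of_nonneg_left ?_ (by norm_num)
  unfold JJ
  rw [← integral_const_mul, ← Real.norm_eq_abs]
  refine norm_integral_le_of_norm_le ((J_cont hv 1 r).const_mul _)
    (Eventually.of_forall fun z => ?_)
  rw [Real.norm_eq_abs]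
  show |(z ⬝ᵥ e) * P 2 z * (vort v (x + r • z) ⬝ᵥ cross z e)|
    ≤ η * (P 2 z * nrm (vort v (x + r • z)))
  rcases lt_or_ge (z ⬝ᵥ z) 1 with hz | hz
  · have hz1 := (nrm_lt_one hz).le
    have b1 : |z ⬝ᵥ e| ≤ 1 := (dot_le _ _).trans (mul_le_one₀ hz1 (nrm_nonneg _) he)
    have h1 : vort v (x + r • z) ⬝ᵥ cross z e = z ⬝ᵥ cross e (vort v (x + r • z)) := by
      simp only [cross, dotProduct, Fin.sum_univ_three, Matrix.cons_val_zero,
        Matrix.cons_val_one, Matrix.cons_val]
      ring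
    have b2 : |vort v (x + r • z) ⬝ᵥ cross z e| ≤ η * nrm (vort v (x + r • z)) := by
      rw [h1]
      exact (dot_le _ _).trans ((mul_le_of_le_one_left (nrm_nonneg _) hz1).trans (hη z hz))
    have hp := P_nonneg 2 z
    rw [abs_mul, abs_mul, abs_of_nonneg hp]
    have h0 := abs_nonneg (vort v (x + r • z) ⬝ᵥ cross z e)
    calc |z ⬝ᵥ e| * P 2 z * |vort v (x + r • z) ⬝ᵥ cross z e|
        ≤ 1 * P 2 z * (η * nrm (vort v (x + r • z))) := by gcongr
      _ = η * (P 2 z * nrm (vort v (x + r • z))) := by ring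
  · have e2 : P 2 z = 0 := P_zero_of hz
    rw [e2]
    simp

/-- Cauchy's mean value theorem as an inequality. -/
lemma mv {A A' B B' : ℝ → ℝ} {a b : ℝ} (hab : a < b) (hA : ∀ r, HasDerivAt A (A' r) r)
    (hBc : ContinuousOn B (Icc a b)) (hB : ∀ r ∈ Ioo a b, HasDerivAt B (B' r) r)
    (hpos : ∀ r ∈ Ioo a b, 0 < B' r) (hle : ∀ r ∈ Ioo a b, |A' r| ≤ B' r) :
    |A b - A a| ≤ B b - B a := by
  obtain ⟨c, hc, hc2⟩ := exists_ratio_hasDerivAt_eq_ratio_slope A A' hab
    (fun r _ => (hA r).continuousAt.continuousWithinAt) (fun r _ => hA r) B B' hBc hB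
  obtain ⟨d, hd, hd2⟩ := exists_hasDerivAt_eq_slope B B' hab hBc hB
  have hBab : 0 ≤ B b - B a := by
    have h1 := hpos d hd
    rw [hd2] at h1
    have h2 : 0 < b - a := by linarith
    rw [div_pos_iff_of_pos_right h2] at h1
    exact h1.le
  have h1 := hpos c hc
  have h2 : |A b - A a| * B' c ≤ (B b - B a) * B' c := by
    rw [← abs_of_pos h1, ← abs_mul, ← hc2, abs_mul, abs_of_nonneg hBab, abs_of_pos h1]
    exact mul_le_mul_of_nonneg_left (hle c hc) hBab
  exact le_of_mul_le_mul_right h2 h1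

end Pool.Agent.L5helper86.ED
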