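import Pool.Agent.L5helper86.ED.S4

/-!
# The bound of the stretching rate: statement and proof
-/

set_option autoImplicit false

open MeasureTheory Set Filter
open scoped ENNReal NNReal Topology

namespace Pool.Agent.L5helper86.ED

open Pool.Agent.H708R2 Pool.Agent.H708R2.EulerSign Pool.Agent.H708R2.EulerTypeI Pool.Agent.W786.Dir

variable {v : V → V}

/-- The frequency `√(E G⁵)` of a flow with energy `E` at the length scale `1 / G`. -/
noncomputable def fr (E G : ℝ) : ℝ := Real.sqrt (E * G ^ 5)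

lemma fr_pos {E G : ℝ} (hE : 0 < E) (hG : 1 ≤ G) : 0 < fr E G :=
  Real.sqrt_pos.2 (by positivity)

/-- the ratio of the scales -/
noncomputable def th (β : ℝ) : ℝ := (1 / 2 : ℝ) ^ (1 / β)

lemma th_pos (β : ℝ) : 0 < th β := Real.rpow_pos_of_pos (by norm_num) _

lemma th_le {β : ℝ} (h0 : 0 < β) (h1 : β ≤ 1) : th β ≤ 1 / 2 := by
  have h2 : 1 ≤ 1 / β := by rw [le_div_iff₀ h0]; linarith
  have h3 := Real.rpow_le_rpow_of_exponent_ge (x := (1 / 2 : ℝ)) (by norm_num) (by norm_num) h2
  rwa [Real.rpow_one] at h3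

lemma th_pow {β : ℝ} (h0 : 0 < β) : th β ^ β = 1 / 2 := by
  unfold th
  rw [← Real.rpow_mul (by norm_num), one_div_mul_cancel h0.ne', Real.rpow_one]

lemma sqrt_scale {E G θ : ℝ} (hE : 0 < E) (hG : 0 < G) (hθ : 0 < θ) :
    1 / (θ / G) * Real.sqrt (E / (θ / G) ^ 3) = fr E G / Real.sqrt (θ ^ 5) := by
  have h1 : 1 / (θ / G) = Real.sqrt ((1 / (θ / G)) ^ 2) := (Real.sqrt_sq (by positivity)).symm
  rw [h1, ← Real.sqrt_mul (by positivity), fr, ← Real.sqrt_div (by positivity)]
  congr 1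
  field_simp

/-- The constant. -/
noncomputable def CC (β : ℝ) : ℝ :=
  (36 * Real.sqrt (∫ z, P 1 z) / Real.sqrt (th β ^ 5) + 6 / β * (∫ z, P 2 z)
    + 2160 * (8 * Real.sqrt (∫ z, P 1 z) / Real.sqrt (th β ^ 5))) / ∫ z, P 3 z

lemma CC_pos {β : ℝ} (h0 : 0 < β) : 0 < CC β := by
  have h1 : 0 < ∫ z, P 1 z := P_int_pos 0
  have h2 : 0 < ∫ z, P 2 z := P_int_pos 1
  have h3 : 0 < ∫ z, P 3 z := P_int_pos 2
  have h4 := th_pos β
  have h5 : 0 < Real.sqrt (th β ^ 5) := Real.sqrt_pos.2 (by positivity)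
  have h6 : 0 < Real.sqrt (∫ z, P 1 z) := Real.sqrt_pos.2 h1
  unfold CC
  positivity

lemma quad_rate {w e : V} {Ω : ℝ} (h : w = Ω • e) (h5 : e ⬝ᵥ e = 1) (x : V) :
    w ⬝ᵥ (grad v x).mulVec w = (w ⬝ᵥ w) * rate v e x := by
  subst h
  rw [rate, Matrix.mulVec_smul, smul_dotProduct, dotProduct_smul, smul_dotProduct,
    dotProduct_smul, h5]
  simp only [smul_eq_mul]
  ring

/-- **The stretching rate at a maximum point.** -/
theorem rate_static {β : ℝ} (hβ0 : 0 < β) (hβ1 : β ≤ 1) (hv : ContDiff ℝ 2 v) (hp : Periodic3 v)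
    (hdiv : ∀ x, divergence v x = 0) {x : V} {G E : ℝ} (hG : 1 ≤ G) (hE : 0 < E)
    (hvE : en2 v ≤ E) (hc : Coh β G v x) (hmax : ∀ y, nrm (vort v y) ≤ nrm (vort v x)) :
    |vort v x ⬝ᵥ (grad v x).mulVec (vort v x)| ≤
      CC β * (fr E G + fr E G ^ (β / 2) * nrm (vort v x) ^ (1 - β / 2)) *
        (vort v x ⬝ᵥ vort v x) := by
  set w := vort v x with hw
  set Ω := nrm w with hΩ
  rcases (nrm_nonneg w).eq_or_lt with h0 | hΩ0
  · have hw0 : w = 0 := nrm_eq_zero h0.symm
    rw [hw0]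
    simp
  rw [← hΩ] at hΩ0
  have hG0 : 0 < G := by linarith
  set θ := th β with hθ
  have hθ0 : 0 < θ := th_pos β
  have hθ1 : θ ≤ 1 / 2 := th_le hβ0 hβ1
  set ρ := θ / G with hρ
  have hρ0 : 0 < ρ := by positivity
  have hGρ : G * ρ = θ := by rw [hρ]; field_simp
  have hρ1 : ρ ≤ 1 / 2 := by
    rw [hρ, div_le_iff₀ hG0]
    linarith
  set R := ρ / 2 with hR
  have hR0 : 0 < R := by positivity
  set g := fr E G with hg
  have hg0 : 0 < g := fr_pos hE hG
  set I1 := ∫ z, P 1 z with hI1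
  set I2 := ∫ z, P 2 z with hI2
  set I3 := ∫ z, P 3 z with hI3
  have c1 : 0 < I1 := P_int_pos 0
  have c2 : 0 < I2 := P_int_pos 1
  have c3 : 0 < I3 := P_int_pos 2
  set κ := Real.sqrt (θ ^ 5) with hκ
  have hκ0 : 0 < κ := Real.sqrt_pos.2 (by positivity)
  have hpi : (3 : ℝ) < Real.pi := Real.pi_gt_three
  -- the unit vector
  set e : V := Ω⁻¹ • w with he'
  have he : nrm e = 1 := by
    rw [he', nrm_smul, abs_of_pos (by positivity)]
    exact inv_mul_cancel₀ hΩ0.ne'
  -- coherence in terms of `e`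
  have coh : ∀ y : V, nrm (y - x) ≤ 1 / G → 0 ≤ vort v y ⬝ᵥ e ∧
      nrm (cross e (vort v y)) ≤ (G * nrm (y - x)) ^ β * nrm (vort v y) := by
    intro y hy
    obtain ⟨h1, h2⟩ := hc y hy
    constructor
    · rw [he', dotProduct_smul, smul_eq_mul, dotProduct_comm]
      exact mul_nonneg (by positivity) h1
    · rw [he', cross_smul_left, nrm_smul, abs_of_pos (by positivity), cross_eq]
      calc Ω⁻¹ * nrm (crossProduct w (vort v y))
          ≤ Ω⁻¹ * ((G * nrm (y - x)) ^ β * (Ω * nrm (vort v y))) := by gcongr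
        _ = _ := by field_simp
  have inb : ∀ r, 0 < r → r ≤ ρ → ∀ z : V, z ⬝ᵥ z < 1 →
      nrm (x + r • z - x) ≤ r ∧ nrm (x + r • z - x) ≤ 1 / G := by
    intro r hr hrρ z hz
    rw [add_sub_cancel_left, nrm_smul, abs_of_pos hr]
    have h1 : r * nrm z ≤ r := mul_le_of_le_one_right hr.le (nrm_lt_one hz).le
    refine ⟨h1, h1.trans (hrρ.trans ?_)⟩
    rw [hρ]
    gcongr
    linarith
  have hη : ∀ r, 0 < r → r ≤ ρ → ∀ z : V, z ⬝ᵥ z < 1 →
      nrm (cross e (vort v (x + r • z))) ≤ (G * r) ^ β * nrm (vort v (x + r • z)) := by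
    intro r hr hrρ z hz
    obtain ⟨h1, h2⟩ := inb r hr hrρ z hz
    refine (coh _ h2).2.trans (mul_le_mul_of_nonneg_right ?_ (nrm_nonneg _))
    refine Real.rpow_le_rpow (mul_nonneg hG0.le (nrm_nonneg _)) ?_ hβ0.le
    gcongr
  have hcone : ∀ z : V, z ⬝ᵥ z < 1 →
      nrm (vort v (x + ρ • z)) ≤ 2 * (vort v (x + ρ • z) ⬝ᵥ e) := by
    intro z hz
    have h1 := (coh _ (inb ρ hρ0 le_rfl z hz).2).1
    have h2 := hη ρ hρ0 le_rfl z hz
    rw [hGρ, th_pow hβ0] at h2
    have h3 := lagrange e (vort v (x + ρ • z))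
    rw [he, one_pow, one_mul, dotProduct_comm] at h3
    set n := nrm (vort v (x + ρ • z)) with hn
    set m := nrm (cross e (vort v (x + ρ • z))) with hm
    have hn0 : 0 ≤ n := nrm_nonneg _
    have hm0 : 0 ≤ m := nrm_nonneg _
    by_contra hcon
    push Not at hcon
    nlinarith
  -- the means of the vorticity
  have hJρ : JJ v x ρ ≤ 8 * Real.sqrt I1 / κ * g := by
    refine (J_le hv x he hρ0 hcone).trans ?_
    have h1 := NN_le hv.continuous hp x hρ0 (by linarith) hE hvE
    have h2 := sqrt_scale hE hG0 hθ0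
    calc 8 / ρ * NN v x ρ ≤ 8 / ρ * (Real.sqrt I1 * Real.sqrt (E / ρ ^ 3)) := by gcongr
      _ = 8 * Real.sqrt I1 * (1 / (θ / G) * Real.sqrt (E / (θ / G) ^ 3)) := by
          rw [← hρ]; ring
      _ = 8 * Real.sqrt I1 * (g / κ) := by rw [h2]
      _ = _ := by ring
  set k1 := 8 * Real.sqrt I1 / κ with hk1
  have hk10 : 0 < k1 := by
    have : 0 < Real.sqrt I1 := Real.sqrt_pos.2 c1
    positivity
  have hnear : ∀ r, JJ v x r ≤ Ω * I2 := by
    intro r
    rw [hI2, ← integral_const_mul]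
    refine integral_mono (J_cont hv 1 r) ((P_integrable 1).const_mul Ω) fun z => ?_
    show P 2 z * nrm (vort v (x + r • z)) ≤ Ω * P 2 z
    rw [mul_comm]
    exact mul_le_mul_of_nonneg_right (hmax _) (P_nonneg 2 z)
  have hfar : ∀ r, 0 < r → r ≤ R → JJ v x r ≤ 90 * ρ ^ 2 * (k1 * g) / r ^ 2 := by
    intro r hr hrR
    have h1 := morrey hv x he hcone (ε := r / ρ) (by positivity) (by
      rw [div_le_iff₀ hρ0]; linarith)
    rw [div_mul_cancel₀ _ hρ0.ne'] at h1
    rw [le_div_iff₀ (by positivity)]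
    have h2 : (r / ρ) ^ 2 * JJ v x r ≤ 90 * (k1 * g) :=
      h1.trans (mul_le_mul_of_nonneg_left hJρ (by norm_num))
    calc JJ v x r * r ^ 2 = ρ ^ 2 * ((r / ρ) ^ 2 * JJ v x r) := by field_simp
      _ ≤ ρ ^ 2 * (90 * (k1 * g)) := by gcongr
      _ = _ := by ring
  -- the means of the rate
  set A : ℝ → ℝ := fun r => ∫ z, P 3 z * rate v e (x + r • z) with hA
  set A' : ℝ → ℝ := fun r => ∫ z, P 3 z * fderiv ℝ (rate v e) (x + r • z) z with hA'
  have hAd : ∀ r, HasDerivAt A (A' r) r := fun r =>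
    param_deriv (P_cont 3) (P_supp 2) (rate_contDiff hv e) x r
  have hA0 : A 0 = I3 * rate v e x := by
    simp only [hA, zero_smul, add_zero]
    rw [integral_mul_const]
  have hA'le : ∀ r, 0 < r → r ≤ R → |A' r| ≤ 6 * (G * r) ^ β * JJ v x r / r := by
    intro r hr hrR
    have h1 := dA_le hv hdiv x he.le r (hη r hr (hrR.trans (by rw [hR]; linarith)))
    rw [abs_mul, abs_of_pos hr] at h1
    rw [le_div_iff₀ hr, mul_comm]
    exact h1
  have hGr : ∀ r, 0 < r → (G * r) ^ β = G ^ β * r ^ β := fun r hr =>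
    Real.mul_rpow hG0.le hr.le
  have hGβ : 0 < G ^ β := Real.rpow_pos_of_pos hG0 β
  have hAR : |A R| ≤ 36 * Real.sqrt I1 / κ * g := by
    refine (A_le hv x he.le hR0).trans ?_
    have h1 := NN_le hv.continuous hp x hR0 (by linarith) hE hvE
    have h2 := sqrt_scale hE hG0 (show 0 < θ / 2 by positivity)
    have h3 : θ / 2 / G = R := by rw [hR, hρ]; field_simp
    rw [h3] at h2
    have h4 : κ / 6 ≤ Real.sqrt ((θ / 2) ^ 5) := by
      refine Real.le_sqrt_of_sq_le ?_
      rw [div_pow, hκ, Real.sq_sqrt (by positivity)]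
      have : 0 < θ ^ 5 := by positivity
      nlinarith
    calc 6 / R * NN v x R ≤ 6 / R * (Real.sqrt I1 * Real.sqrt (E / R ^ 3)) := by gcongr
      _ = 6 * Real.sqrt I1 * (1 / R * Real.sqrt (E / R ^ 3)) := by ring
      _ = 6 * Real.sqrt I1 * (g / Real.sqrt ((θ / 2) ^ 5)) := by rw [h2]
      _ ≤ 6 * Real.sqrt I1 * (g / (κ / 6)) := by gcongr
      _ = _ := by field_simp; norm_num
  -- the near part
  have near : ∀ r₀, 0 < r₀ → r₀ ≤ R → |A r₀ - A 0| ≤ 6 / β * I2 * (Ω * (G * r₀) ^ β) := by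
    intro r₀ hr₀ hr₀R
    set B : ℝ → ℝ := fun r => 6 / β * I2 * Ω * G ^ β * r ^ β with hB
    have h1 := mv (A := A) (A' := A') (B := B)
      (B' := fun r => 6 / β * I2 * Ω * G ^ β * (β * r ^ (β - 1))) hr₀ hAd ?_ ?_ ?_ ?_
    · refine h1.trans (le_of_eq ?_)
      rw [hGr r₀ hr₀]
      simp only [hB]
      rw [Real.zero_rpow hβ0.ne']
      ring
    · refine continuousOn_const.mul ?_
      exact (Real.continuous_rpow_const hβ0.le).continuousOn
    · intro r hr
      exact (Real.hasDerivAt_rpow_const (Or.inl hr.1.ne')).const_mul _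
    · intro r hr
      have := Real.rpow_pos_of_pos hr.1 (β - 1)
      positivity
    · intro r hr
      refine (hA'le r hr.1 (hr.2.le.trans hr₀R)).trans ?_
      rw [hGr r hr.1, div_le_iff₀ hr.1]
      have h2 : r ^ (β - 1) * r = r ^ β := by
        rw [Real.rpow_sub_one hr.1.ne', div_mul_cancel₀ _ hr.1.ne']
      have h3 := Real.rpow_pos_of_pos hr.1 β
      calc 6 * (G ^ β * r ^ β) * JJ v x r ≤ 6 * (G ^ β * r ^ β) * (Ω * I2) := by
            gcongr
            exact hnear r
        _ = 6 / β * I2 * Ω * G ^ β * (β * (r ^ (β - 1) * r)) := by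
            rw [h2]
            field_simp
        _ = _ := by ring
  have hGR : G * R ≤ 1 := by
    have : G * R = θ / 2 := by rw [hR, ← hGρ]; ring
    linarith
  have hGR0 : 0 < G * R := by positivity
  have hGRβ : (G * R) ^ β ≤ 1 := Real.rpow_le_one hGR0.le hGR hβ0.le
  -- the total
  have tot : I3 * |rate v e x| ≤ (36 * Real.sqrt I1 / κ + 6 / β * I2 + 2160 * k1)
      * (g + g ^ (β / 2) * Ω ^ (1 - β / 2)) := by
    rw [← abs_of_pos c3, ← abs_mul, ← hA0]
    set s := g ^ (β / 2) * Ω ^ (1 - β / 2) with hs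
    have hs0 : 0 < s := mul_pos (Real.rpow_pos_of_pos hg0 _) (Real.rpow_pos_of_pos hΩ0 _)
    have hk2 : 0 < 36 * Real.sqrt I1 / κ := by
      have : 0 < Real.sqrt I1 := Real.sqrt_pos.2 c1
      positivity
    set k2 := 36 * Real.sqrt I1 / κ with hk2'
    have hk3 : 0 < 6 / β * I2 := by positivity
    rcases le_or_gt Ω g with hle | hlt
    · have h1 := near R hR0 le_rfl
      have h2 : 6 / β * I2 * (Ω * (G * R) ^ β) ≤ 6 / β * I2 * (g * 1) := by gcongr
      have h3 : |A 0| ≤ |A R| + |A R - A 0| := by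
        have := abs_sub_abs_le_abs_sub (A 0) (A R)
        rw [abs_sub_comm] at this
        linarith
      have e0 : (k2 + 6 / β * I2 + 2160 * k1) * (g + s) = k2 * g + 6 / β * I2 * (g * 1) +
          (k2 * s + 6 / β * I2 * s + 2160 * (k1 * g) + 2160 * (k1 * s)) := by ring
      have e1 : 0 < k2 * s + 6 / β * I2 * s + 2160 * (k1 * g) + 2160 * (k1 * s) := by positivity
      linarith
    · set q := g / Ω with hq
      have hq0 : 0 < q := by positivity
      have hq1 : q < 1 := (div_lt_one hΩ0).2 hlt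
      set r₀ := R * q ^ (1 / 2 : ℝ) with hr₀'
      have hqh : 0 < q ^ (1 / 2 : ℝ) := Real.rpow_pos_of_pos hq0 _
      have hqh1 : q ^ (1 / 2 : ℝ) < 1 := Real.rpow_lt_one hq0.le hq1 (by norm_num)
      have hr₀ : 0 < r₀ := by positivity
      have hr₀R : r₀ < R := mul_lt_of_lt_one_right hR0 hqh1
      have e1 : (G * r₀) ^ β = (G * R) ^ β * q ^ (β / 2) := by
        rw [hr₀', ← mul_assoc, Real.mul_rpow hGR0.le hqh.le, ← Real.rpow_mul hq0.le]
        congr 2
        ring
      have e2 : Ω * q ^ (β / 2) = s := by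
        rw [hq, Real.div_rpow hg0.le hΩ0.le, hs, Real.rpow_sub hΩ0, Real.rpow_one]
        ring
      have h1 : |A r₀ - A 0| ≤ 6 / β * I2 * s := by
        refine (near r₀ hr₀ hr₀R.le).trans ?_
        rw [e1, ← e2]
        have : 0 < q ^ (β / 2) := Real.rpow_pos_of_pos hq0 _
        calc 6 / β * I2 * (Ω * ((G * R) ^ β * q ^ (β / 2)))
            ≤ 6 / β * I2 * (Ω * (1 * q ^ (β / 2))) := by gcongr
          _ = _ := by ring
      -- the far part
      set c := 540 * G ^ β * ρ ^ 2 * (k1 * g) with hc'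
      have hc0 : 0 < c := by positivity
      have h2β : 0 < 2 - β := by linarith
      have h2 : |A R - A r₀| ≤ 2160 * k1 * s := by
        set B : ℝ → ℝ := fun r => -(c / (2 - β)) * r ^ (β - 2) with hB
        have h3 := mv (A := A) (A' := A') (B := B)
          (B' := fun r => -(c / (2 - β)) * ((β - 2) * r ^ (β - 2 - 1))) hr₀R hAd ?_ ?_ ?_ ?_
        · refine h3.trans ?_
          simp only [hB]
          have h4 : 0 < R ^ (β - 2) := Real.rpow_pos_of_pos hR0 _
          have h5 : 0 < r₀ ^ (β - 2) := Real.rpow_pos_of_pos hr₀ _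
          have h6 : c / (2 - β) ≤ c := div_le_self hc0.le (by linarith)
          have h7 : 0 < c / (2 - β) := by positivity
          have e3 : r₀ ^ (β - 2) = R ^ (β - 2) * q ^ (β / 2 - 1) := by
            rw [hr₀', Real.mul_rpow hR0.le hqh.le, ← Real.rpow_mul hq0.le]
            congr 2
            ring
          have e4 : g * q ^ (β / 2 - 1) = s := by
            rw [Real.rpow_sub_one hq0.ne', ← e2, hq]
            field_simp
          have e5 : R ^ (β - 2) = R ^ β / R ^ 2 := by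
            rw [Real.rpow_sub hR0, Real.rpow_two]
          calc -(c / (2 - β)) * R ^ (β - 2) - -(c / (2 - β)) * r₀ ^ (β - 2)
              ≤ c / (2 - β) * r₀ ^ (β - 2) := by nlinarith
            _ ≤ c * r₀ ^ (β - 2) := by gcongr
            _ = 2160 * k1 * (G * R) ^ β * (g * q ^ (β / 2 - 1)) := by
                rw [e3, hc', e5, Real.mul_rpow hG0.le hR0.le]
                have : ρ = 2 * R := by rw [hR]; ring
                rw [this]
                field_simp
                norm_num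
            _ ≤ 2160 * k1 * 1 * (g * q ^ (β / 2 - 1)) := by
                have : 0 < q ^ (β / 2 - 1) := Real.rpow_pos_of_pos hq0 _
                gcongr
            _ = _ := by rw [e4]; ring
        · refine continuousOn_const.mul ?_
          exact ContinuousOn.rpow_const continuousOn_id fun r hr => Or.inl (hr₀.trans_le hr.1).ne'
        · intro r hr
          exact (Real.hasDerivAt_rpow_const (Or.inl (hr₀.trans hr.1).ne')).const_mul _
        · intro r hr
          have h4 := Real.rpow_pos_of_pos (hr₀.trans hr.1) (β - 2 - 1)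
          have : -(c / (2 - β)) * ((β - 2) * r ^ (β - 2 - 1)) = c * r ^ (β - 2 - 1) := by
            field_simp
            ring
          rw [this]
          positivity
        · intro r hr
          have hr0 : 0 < r := hr₀.trans hr.1
          have h4 := Real.rpow_pos_of_pos hr0 β
          have e6 : -(c / (2 - β)) * ((β - 2) * r ^ (β - 2 - 1)) = c * r ^ (β - 2 - 1) := by
            field_simp
            ring
          have e7 : r ^ (β - 2 - 1) = r ^ β / r ^ 2 / r := by
            rw [Real.rpow_sub_one hr0.ne', Real.rpow_sub hr0, Real.rpow_two]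
          rw [e6, e7]
          refine (hA'le r hr0 hr.2.le).trans ?_
          rw [hGr r hr0]
          calc 6 * (G ^ β * r ^ β) * JJ v x r / r
              ≤ 6 * (G ^ β * r ^ β) * (90 * ρ ^ 2 * (k1 * g) / r ^ 2) / r := by
                gcongr
                exact hfar r hr0 hr.2.le
            _ = c * (r ^ β / r ^ 2 / r) := by
                rw [hc']
                ring
      have h3 : |A 0| ≤ |A R| + |A R - A r₀| + |A r₀ - A 0| := by
        have h4 := abs_sub_abs_le_abs_sub (A 0) (A R)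
        have h5 : |A 0 - A R| ≤ |A R - A r₀| + |A r₀ - A 0| := by
          have e : A 0 - A R = -((A R - A r₀) + (A r₀ - A 0)) := by ring
          rw [e, abs_neg]
          exact abs_add_le _ _
        linarith
      have e8 : (k2 + 6 / β * I2 + 2160 * k1) * (g + s) = k2 * g + 2160 * k1 * s +
          6 / β * I2 * s + (k2 * s + 6 / β * I2 * g + 2160 * (k1 * g)) := by ring
      have e9 : 0 < k2 * s + 6 / β * I2 * g + 2160 * (k1 * g) := by positivity
      linarith
  have hrate : |rate v e x| ≤ CC β * (g + g ^ (β / 2) * Ω ^ (1 - β / 2)) := by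
    unfold CC
    rw [div_mul_eq_mul_div, le_div_iff₀ c3, mul_comm]
    exact tot
  have h3 : w ⬝ᵥ (grad v x).mulVec w = (w ⬝ᵥ w) * rate v e x := by
    have h4 : w = Ω • e := by rw [he', smul_smul, mul_inv_cancel₀ hΩ0.ne', one_smul]
    have h5 : e ⬝ᵥ e = 1 := by rw [← nrm_sq, he, one_pow]
    exact quad_rate h4 h5 x
  rw [h3, abs_mul, abs_of_nonneg (dot_self_nonneg _), mul_comm]
  exact mul_le_mul_of_nonneg_right hrate (dot_self_nonneg _)

end Pool.Agent.L5helper86.ED
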