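import Pool.Agent.L5helper86.ED.S5
import Pool.Agent.W786.Max4

/-!
# Conservation of energy, the growth of the vorticity, an integral criterion
-/

set_option autoImplicit false

open MeasureTheory Set Filter
open scoped ENNReal NNReal Topology

namespace Pool.Agent.L5helper86.ED

open Pool.Agent.H708R2 Pool.Agent.H708R2.EulerSign Pool.Agent.H708R2.EulerTypeI Pool.Agent.W786.Dir
  Pool.Agent.W786.Max

variable {T : ℝ} {u : ℝ → V → V} {p : ℝ → V → ℝ}

lemma dom_cell : Dom = Cell (fun _ => 0) := by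
  ext m
  rw [dom_mem]
  simp only [Cell, mem_ofPred_eq, zero_add]

lemma en_eq {v : ℝ → V → V} {t : ℝ} (hp : Periodic3 (v t)) :
    en v (fun _ _ => 0) t = en2 (v t) := by
  unfold en
  rw [dom_cell, ← cell_pi, ← cell_integral (fun _ => 0) (fun _ => -Real.pi) (q_per hp)]
  refine integral_congr_ae (Eventually.of_forall fun x => ?_)
  simp only [sub_zero, sq3, dotProduct]
  exact Finset.sum_congr rfl fun i _ => sq _

/-- The energy does not increase. -/
lemma energy (h : IsClassicalSolution (Ico 0 T) u p) {t : ℝ} (ht : t ∈ Ico 0 T) :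
    en2 (u t) ≤ en2 (u 0) := by
  have h0 : ContDiff ℝ 1 (fun z : ℝ × V => (fun _ _ => (0 : V) : ℝ → V → V) z.1 z.2) :=
    contDiff_const
  have hgrad : ∀ (t : ℝ) (x : V) i j, grad ((fun _ _ => (0 : V) : ℝ → V → V) t) x i j = 0 := by
    intro t x i j
    simp [grad]
  have hdiv : ∀ (t : ℝ) (x : V), divergence ((fun _ _ => (0 : V) : ℝ → V → V) t) x = 0 := by
    intro t x
    unfold divergence Matrix.trace
    exact Finset.sum_eq_zero fun i _ => hgrad t x i i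
  have hanti : AntitoneOn (en u (fun _ _ => 0)) (Ico 0 T) := by
    refine antitoneOn_of_deriv_nonpos (convex_Ico _ _) (en_continuousOn h h0) ?_ ?_
    · intro s hs
      rw [interior_Ico] at hs
      exact (en_hasDerivAt h h0 hs).differentiableAt.differentiableWithinAt
    · intro s hs
      rw [interior_Ico] at hs
      rw [(en_hasDerivAt h h0 hs).deriv]
      have h1 := en_deriv_le (K := 0) h h0 (fun t i x => rfl) hdiv
        (fun t x i => by simp) (fun t _ x i j => by rw [hgrad t x i j]; simp) hs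
      have h2 := (abs_le.1 h1).2
      simpa using h2
  have h1 := hanti ⟨le_rfl, ht.1.trans_lt ht.2⟩ ht ht.1
  rwa [en_eq (h.periodic_u t ht), en_eq (h.periodic_u 0 ⟨le_rfl, ht.1.trans_lt ht.2⟩)] at h1

/-- The growth rate of the vorticity at a maximum point. -/
lemma rate_dyn {β : ℝ} (hβ0 : 0 < β) (hβ1 : β ≤ 1) (h : IsC2Solution T u p) {t : ℝ}
    (ht : t ∈ Ioo 0 T) {x : V} (hx : IsMaxPt u t x) {G E : ℝ} (hG : 1 ≤ G) (hE : 0 < E)
    (hE0 : en2 (u 0) ≤ E) (hc : Coh β G (u t) x) :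
    Pq u t x ≤ CC β * (fr E G + fr E G ^ (β / 2) * nrm (vort (u t) x) ^ (1 - β / 2))
      * Wq u t x := by
  have htI : t ∈ Ico 0 T := ⟨ht.1.le, ht.2⟩
  exact (le_abs_self _).trans (rate_static hβ0 hβ1 (slice_two h ht) (h.sol.periodic_u t htI)
    (fun x => h.sol.div_free t htI x) hG hE ((energy h.sol htI).trans hE0) hc hx)

lemma fr_eq {E G : ℝ} (hE : 0 < E) (hG : 0 < G) :
    fr E G = Real.sqrt E * G ^ (5 / 2 : ℝ) := by
  unfold fr
  rw [Real.sqrt_mul hE.le]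
  congr 1
  rw [Real.sqrt_eq_rpow, ← Real.rpow_natCast G 5, ← Real.rpow_mul hG.le]
  norm_num

lemma fr_rpow {E G : ℝ} (hE : 0 < E) (hG : 0 < G) (s : ℝ) :
    fr E G ^ s = Real.sqrt E ^ s * G ^ (5 / 2 * s) := by
  rw [fr_eq hE hG, Real.mul_rpow (Real.sqrt_nonneg _) (Real.rpow_pos_of_pos hG _).le,
    ← Real.rpow_mul hG.le]

/-- A bound of the vorticity near the final time suffices. -/
lemma bkm_of_bound (h : IsClassicalSolution (Ico 0 T) u p) {t₀ : ℝ} (ht₀ : t₀ ∈ Ico 0 T) {M : ℝ}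
    (hM : ∀ t ∈ Ico t₀ T, ∀ x, nrm (vort (u t) x) ≤ M) : BKMFinite T u := by
  obtain ⟨W, hW0, hW⟩ := vort_bound h ht₀.2
  have h1 : ∫⁻ t in Ioo 0 T, ⨆ x, ENNReal.ofReal (nrm (vort (u t) x))
      ≤ ∫⁻ _t in Ioo 0 T, ENNReal.ofReal (max M W) := by
    refine setLIntegral_mono' measurableSet_Ioo fun t ht => ?_
    refine iSup_le fun x => ENNReal.ofReal_le_ofReal ?_
    rcases lt_or_ge t t₀ with h2 | h2
    · exact ((hW t ⟨ht.1.le, h2.le⟩ x).1).trans (le_max_right _ _)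
    · exact (hM t ⟨h2, ht.2⟩ x).trans (le_max_left _ _)
  unfold BKMFinite
  refine h1.trans_lt ?_
  rw [setLIntegral_const, Real.volume_Ioo]
  exact ENNReal.mul_lt_top ENNReal.ofReal_lt_top ENNReal.ofReal_lt_top

/-- **The integral criterion.** -/
theorem crit {β : ℝ} (hβ0 : 0 < β) (hβ1 : β ≤ 1) (h : IsC2Solution T u p) {t₀ : ℝ}
    (ht₀ : t₀ ∈ Ico 0 T) {G m : ℝ → ℝ} {Λ : ℝ}
    (hG : IntegrableOn (fun t => G t ^ (5 / 2 : ℝ)) (Ioo t₀ T))
    (hm : IntegrableOn (fun t => G t ^ (5 * β / 4) * m t ^ (1 - β / 2)) (Ioo t₀ T))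
    (hyp : ∀ᵐ t, t ∈ Ioo t₀ T → 1 ≤ G t ∧ ∃ x, IsMaxPt u t x ∧ nrm (vort (u t) x) ≤ m t ∧
      (Λ < nrm (vort (u t) x) → Coh β (G t) (u t) x)) :
    BKMFinite T u := by
  set E := en2 (u 0) + 1 with hEdef
  have hE : 0 < E := by have := en2_nonneg (v := u 0); linarith
  have hE0 : en2 (u 0) ≤ E := by linarith
  have hC := CC_pos hβ0
  set ρ : ℝ → ℝ := fun t => CC β * (Real.sqrt E * |G t ^ (5 / 2 : ℝ)|
    + Real.sqrt E ^ (β / 2) * |G t ^ (5 * β / 4) * m t ^ (1 - β / 2)|) with hρ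
  have hρ0 : ∀ t, 0 ≤ ρ t := fun t => by
    have := Real.sqrt_nonneg E
    simp only [hρ]
    positivity
  have hρi : IntegrableOn ρ (Ioo t₀ T) :=
    ((hG.abs.const_mul _).add (hm.abs.const_mul _)).const_mul _
  obtain ⟨W, hW0, hW⟩ := vort_bound h.sol ht₀.2
  set K := max W Λ with hK
  have hK0 : 0 ≤ K := hW0.trans (le_max_left _ _)
  refine bkm_of_bound h.sol ht₀ (M := K * Real.exp (∫ s in Ioo t₀ T, ρ s)) fun b hb x => ?_
  have hρb : IntegrableOn ρ (Icc t₀ b) := by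
    rw [integrableOn_Icc_iff_integrableOn_Ioo]
    exact hρi.mono_set (Ioo_subset_Ioo_right hb.2.le)
  have hii : ∀ s ∈ Icc t₀ b, IntervalIntegrable ρ volume t₀ s := fun s hs =>
    (intervalIntegrable_iff_integrableOn_Icc_of_le hs.1).2
      (hρb.mono_set (Icc_subset_Icc_right hs.2))
  have hfin : K * Real.exp (∫ s in t₀..b, ρ s) ≤ K * Real.exp (∫ s in Ioo t₀ T, ρ s) := by
    refine mul_le_mul_of_nonneg_left (Real.exp_le_exp.2 ?_) hK0
    rw [intervalIntegral.integral_of_le hb.1, integral_Ioc_eq_integral_Ioo]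
    refine setIntegral_mono_set hρi ?_ (Ioo_subset_Ioo_right hb.2.le).eventuallyLE
    exact Eventually.of_forall fun s => hρ0 s
  refine le_trans ?_ hfin
  refine comp_max h ht₀.1 hb.1 hb.2 (ρ := ρ)
    (G := fun t => K * Real.exp (∫ s in t₀..t, ρ s)) ?_ hρb (fun t _ => hρ0 t) ?_ ?_ ?_ x
  · have h1 : ContinuousOn (fun t => ∫ s in t₀..t, ρ s) (Icc t₀ b) := by
      have := intervalIntegral.continuousOn_primitive_interval (f := ρ) (a := t₀) (b := b)
        (by rwa [uIcc_of_le hb.1])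
      rwa [uIcc_of_le hb.1] at this
    exact continuousOn_const.mul (Real.continuous_exp.comp_continuousOn h1)
  · intro s hs
    have h1 : (∫ r in t₀..s, ρ r) + ∫ r in s..b, ρ r = ∫ r in t₀..b, ρ r :=
      intervalIntegral.integral_add_adjacent_intervals (hii s hs)
        ((hii s hs).symm.trans (hii b ⟨hb.1, le_rfl⟩))
    rw [mul_assoc, ← Real.exp_add, h1]
  · intro y
    simp only [intervalIntegral.integral_same, Real.exp_zero, mul_one]
    exact ((hW t₀ ⟨ht₀.1, le_rfl⟩ y).1).trans (le_max_left _ _)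
  · filter_upwards [hyp] with t ht htI
    have htT : t ∈ Ioo t₀ T := ⟨htI.1, htI.2.trans hb.2⟩
    obtain ⟨hG1, y, hy, hym, hy2⟩ := ht htT
    refine ⟨y, hy, fun hlt => ?_⟩
    have hG0 : 0 < G t := by linarith
    have h2 : 0 ≤ ∫ s in t₀..t, ρ s :=
      intervalIntegral.integral_nonneg htI.1.le fun s _ => hρ0 s
    have h3 : 1 ≤ Real.exp (∫ s in t₀..t, ρ s) := Real.one_le_exp h2
    have h4 : Λ < nrm (vort (u t) y) := lt_of_le_of_lt (by
      calc Λ ≤ K := le_max_right _ _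
        _ ≤ K * Real.exp (∫ s in t₀..t, ρ s) := le_mul_of_one_le_right hK0 h3) hlt
    have h5 := rate_dyn hβ0 hβ1 h ⟨ht₀.1.trans_lt htT.1, htT.2⟩ hy hG1 hE hE0 (hy2 h4)
    refine h5.trans (mul_le_mul_of_nonneg_right ?_ (Wq_nonneg _ _))
    simp only [hρ]
    rw [fr_rpow hE hG0, fr_eq hE hG0]
    have h6 : (0 : ℝ) < G t ^ (5 / 2 : ℝ) := Real.rpow_pos_of_pos hG0 _
    have h7 : (0 : ℝ) < G t ^ (5 * β / 4) := Real.rpow_pos_of_pos hG0 _
    have h8 : nrm (vort (u t) y) ^ (1 - β / 2) ≤ m t ^ (1 - β / 2) :=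
      Real.rpow_le_rpow (nrm_nonneg _) hym (by linarith)
    have h9 : 0 ≤ Real.sqrt E ^ (β / 2) := Real.rpow_nonneg (Real.sqrt_nonneg _) _
    have e1 : 5 / 2 * (β / 2) = 5 * β / 4 := by ring
    rw [e1, abs_of_pos h6]
    refine mul_le_mul_of_nonneg_left ?_ hC.le
    refine add_le_add_right ?_ _
    calc Real.sqrt E ^ (β / 2) * G t ^ (5 * β / 4) * nrm (vort (u t) y) ^ (1 - β / 2)
        ≤ Real.sqrt E ^ (β / 2) * G t ^ (5 * β / 4) * m t ^ (1 - β / 2) := by gcongr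
      _ = Real.sqrt E ^ (β / 2) * (G t ^ (5 * β / 4) * m t ^ (1 - β / 2)) := by ring
      _ ≤ _ := by
        gcongr
        exact le_abs_self _

end Pool.Agent.L5helper86.ED
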