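import Pool.Agent.L5helper86.ED.S6

/-!
# Type I singularities
-/

set_option autoImplicit false

open MeasureTheory Set Filter
open scoped ENNReal NNReal Topology

namespace Pool.Agent.L5helper86.ED

open Pool.Agent.H708R2 Pool.Agent.H708R2.EulerSign Pool.Agent.H708R2.EulerTypeI Pool.Agent.W786.Dir
  Pool.Agent.W786.Max

variable {T : ℝ} {u : ℝ → V → V} {p : ℝ → V → ℝ}

/-- The threshold for Type I singularities. -/
noncomputable def cT (β : ℝ) : ℝ := min (1 / (4 * CC β)) ((1 / (4 * CC β)) ^ (2 / β))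

lemma cT_pos {β : ℝ} (h0 : 0 < β) : 0 < cT β := by
  have hC := CC_pos h0
  refine lt_min (by positivity) (Real.rpow_pos_of_pos (by positivity) _)

lemma cT_rpow {β : ℝ} (h0 : 0 < β) : cT β ^ (β / 2) ≤ 1 / (4 * CC β) := by
  have hC := CC_pos h0
  have h1 : cT β ^ (β / 2) ≤ ((1 / (4 * CC β)) ^ (2 / β)) ^ (β / 2) :=
    Real.rpow_le_rpow (cT_pos h0).le (min_le_right _ _) (by positivity)
  rw [← Real.rpow_mul (by positivity), show 2 / β * (β / 2) = 1 by field_simp, Real.rpow_one] at h1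
  exact h1

/-- The rate under the assumption of Type I. -/
lemma rate_type {β : ℝ} (hβ0 : 0 < β) (hβ1 : β ≤ 1) {g Ω τ C₁ : ℝ} (hC₁ : 1 ≤ C₁) (hτ : 0 < τ)
    (hg : 0 < g) (hΩ : 0 ≤ Ω) (hΩ1 : τ * Ω ≤ C₁) (hg1 : τ * g ≤ cT β * C₁ ^ (1 - 2 / β)) :
    CC β * (g + g ^ (β / 2) * Ω ^ (1 - β / 2)) ≤ 1 / (2 * τ) := by
  have hC := CC_pos hβ0
  have hc := cT_pos hβ0
  have hC0 : 0 < C₁ := by linarith
  have h2 : C₁ ^ (1 - 2 / β) ≤ 1 := by
    refine Real.rpow_le_one_of_one_le_of_nonpos hC₁ ?_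
    have : 1 ≤ 2 / β := by rw [le_div_iff₀ hβ0]; linarith
    linarith
  have h3 : g ≤ 1 / (4 * CC β) / τ := by
    rw [le_div_iff₀ hτ, mul_comm]
    refine hg1.trans ?_
    calc cT β * C₁ ^ (1 - 2 / β) ≤ cT β * 1 := by gcongr
      _ ≤ 1 / (4 * CC β) := by rw [mul_one]; exact min_le_left _ _
  have h4 : g ^ (β / 2) * Ω ^ (1 - β / 2) ≤ 1 / (4 * CC β) / τ := by
    have h5 : (τ * g) ^ (β / 2) ≤ (cT β * C₁ ^ (1 - 2 / β)) ^ (β / 2) :=
      Real.rpow_le_rpow (by positivity) hg1 (by positivity)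
    have h6 : (τ * Ω) ^ (1 - β / 2) ≤ C₁ ^ (1 - β / 2) :=
      Real.rpow_le_rpow (by positivity) hΩ1 (by linarith)
    rw [Real.mul_rpow hc.le (Real.rpow_pos_of_pos hC0 _).le, ← Real.rpow_mul hC0.le,
      show (1 - 2 / β) * (β / 2) = β / 2 - 1 by field_simp] at h5
    rw [Real.mul_rpow hτ.le hg.le] at h5
    rw [Real.mul_rpow hτ.le hΩ] at h6
    have e1 : τ ^ (β / 2) * τ ^ (1 - β / 2) = τ := by
      rw [← Real.rpow_add hτ]
      rw [show β / 2 + (1 - β / 2) = 1 by ring, Real.rpow_one]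
    have e2 : C₁ ^ (β / 2 - 1) * C₁ ^ (1 - β / 2) = 1 := by
      rw [← Real.rpow_add hC0]
      rw [show β / 2 - 1 + (1 - β / 2) = 0 by ring, Real.rpow_zero]
    have h7 : 0 < τ ^ (β / 2) := Real.rpow_pos_of_pos hτ _
    have h8 : 0 < τ ^ (1 - β / 2) := Real.rpow_pos_of_pos hτ _
    have h9 : 0 < g ^ (β / 2) := Real.rpow_pos_of_pos hg _
    have h10 : 0 ≤ Ω ^ (1 - β / 2) := Real.rpow_nonneg hΩ _
    have h11 : 0 < C₁ ^ (β / 2 - 1) := Real.rpow_pos_of_pos hC0 _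
    have h12 : 0 < cT β ^ (β / 2) := Real.rpow_pos_of_pos hc _
    have h13 := mul_le_mul h5 h6 (by positivity) (by positivity)
    rw [le_div_iff₀ hτ]
    calc g ^ (β / 2) * Ω ^ (1 - β / 2) * τ
        = τ ^ (β / 2) * g ^ (β / 2) * (τ ^ (1 - β / 2) * Ω ^ (1 - β / 2)) := by
          rw [← e1]
          rw [e1]
          calc g ^ (β / 2) * Ω ^ (1 - β / 2) * τ
              = g ^ (β / 2) * Ω ^ (1 - β / 2) * (τ ^ (β / 2) * τ ^ (1 - β / 2)) := by rw [e1]
            _ = _ := by ring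
      _ ≤ cT β ^ (β / 2) * C₁ ^ (β / 2 - 1) * C₁ ^ (1 - β / 2) := h13
      _ = cT β ^ (β / 2) * (C₁ ^ (β / 2 - 1) * C₁ ^ (1 - β / 2)) := by ring
      _ = cT β ^ (β / 2) := by rw [e2, mul_one]
      _ ≤ _ := cT_rpow hβ0
  calc CC β * (g + g ^ (β / 2) * Ω ^ (1 - β / 2))
      ≤ CC β * (1 / (4 * CC β) / τ + 1 / (4 * CC β) / τ) := by gcongr
    _ = 1 / (2 * τ) := by
      field_simp
      norm_num

/-- Type I singularities, with the condition at one maximum point. -/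
theorem type_one {β : ℝ} (hβ0 : 0 < β) (hβ1 : β ≤ 1) (hT : 0 < T) (h : IsC2Solution T u p)
    {G : ℝ → ℝ} {C₁ E : ℝ} (hC₁ : 1 ≤ C₁) (hE : 0 < E) (hE0 : en2 (u 0) ≤ E)
    (hI : ∀ᶠ t in 𝓝[<] T, ∀ x, (T - t) * nrm (vort (u t) x) ≤ C₁)
    (hd : ∀ᶠ t in 𝓝[<] T, 1 ≤ G t ∧ (T - t) * fr E (G t) ≤ cT β * C₁ ^ (1 - 2 / β) ∧
      ∃ x, IsMaxPt u t x ∧
        (1 / Real.sqrt (T - t) < nrm (vort (u t) x) → Coh β (G t) (u t) x)) :
    (∃ C : ℝ, ∀ᶠ t in 𝓝[<] T, ∀ x, nrm (vort (u t) x) ≤ C / Real.sqrt (T - t)) ∧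
    BKMFinite T u := by
  obtain ⟨t₀, ht₀, hP⟩ := exists_start hT (hI.and hd) 0
  -- the rate
  have hrate : ∀ t ∈ Ico t₀ T, ∃ y, IsMaxPt u t y ∧
      (1 / Real.sqrt (T - t) < nrm (vort (u t) y) →
        Pq u t y ≤ 1 / (2 * (T - t)) * Wq u t y) := by
    intro t ht
    obtain ⟨⟨hIt, hG, hUG, y, hy, hdir⟩, -⟩ := hP t ht
    refine ⟨y, hy, fun hlt => ?_⟩
    have htI : t ∈ Ioo 0 T := ⟨ht₀.1.trans_le ht.1, ht.2⟩
    have hTt : 0 < T - t := sub_pos.2 ht.2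
    have h1 := rate_dyn hβ0 hβ1 h htI hy hG hE hE0 (hdir hlt)
    refine h1.trans (mul_le_mul_of_nonneg_right ?_ (Wq_nonneg _ _))
    exact rate_type hβ0 hβ1 hC₁ hTt (fr_pos hE hG) (nrm_nonneg _) (hIt y) hUG
  obtain ⟨W, hW0, hW⟩ := vort_bound h.sol ht₀.2
  set C := max 1 (W * Real.sqrt (T - t₀)) with hCdef
  have hC1 : 1 ≤ C := le_max_left _ _
  have hmain : ∀ b ∈ Ico t₀ T, ∀ x, nrm (vort (u b) x) ≤ C * (1 / Real.sqrt (T - b)) := by
    intro b hb x
    have hsub : ∀ t ∈ Icc t₀ b, 0 < T - t := fun t ht => by linarith [ht.2, hb.2]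
    refine comp_max h ht₀.1.le hb.1 hb.2 (G := fun t => C * (1 / Real.sqrt (T - t)))
      (ρ := fun t => 1 / (2 * (T - t))) ?_ ?_ ?_ ?_ ?_ ?_ x
    · refine continuousOn_const.mul (continuousOn_const.div (by fun_prop) fun t ht => ?_)
      exact (Real.sqrt_pos.2 (hsub t ht)).ne'
    · refine (continuousOn_const.div (by fun_prop) fun t ht => ?_).integrableOn_Icc
      have := hsub t ht
      positivity
    · intro t ht
      have := hsub t ht
      positivity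
    · intro s hs
      rw [mul_assoc, int_half hs.2 hb.2]
    · intro y
      have h1 := (hW t₀ ⟨ht₀.1.le, le_rfl⟩ y).1
      have h2 : 0 < Real.sqrt (T - t₀) := Real.sqrt_pos.2 (sub_pos.2 ht₀.2)
      have h3 : W * Real.sqrt (T - t₀) ≤ C := le_max_right _ _
      rw [mul_one_div, le_div_iff₀ h2]
      exact (mul_le_mul_of_nonneg_right h1 h2.le).trans h3
    · refine Eventually.of_forall fun t ht => ?_
      obtain ⟨y, hy, hy2⟩ := hrate t ⟨ht.1.le, ht.2.trans hb.2⟩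
      refine ⟨y, hy, fun hlt => hy2 (lt_of_le_of_lt ?_ hlt)⟩
      have := hsub t ⟨ht.1.le, ht.2.le⟩
      exact le_mul_of_one_le_left (by positivity) hC1
  refine ⟨⟨C, ?_⟩, ?_⟩
  · filter_upwards [Ico_mem_nhdsLT ht₀.2] with t ht x
    have := hmain t ht x
    rwa [mul_one_div] at this
  -- finiteness of the integral
  obtain ⟨M', hM0', hM'⟩ := vort_bound h.sol ht₀.2
  have hint : IntegrableOn (fun t => C * (1 / Real.sqrt (T - t))) (Ioc t₀ T) := by
    have h1 : IntegrableOn (fun t => 1 / Real.sqrt (T - t)) (Ioc t₀ T) := by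
      refine intervalIntegral.integrableOn_deriv_of_nonneg
        (g := fun t => -2 * Real.sqrt (T - t)) ?_ ?_ ?_
      · exact (continuous_const.mul (Real.continuous_sqrt.comp
          (continuous_const.sub continuous_id))).continuousOn
      · intro t ht
        have hTt : 0 < T - t := sub_pos.2 ht.2
        have h2 : HasDerivAt (fun r => T - r) (-1) t := by
          simpa using (hasDerivAt_id t).const_sub T
        have h3 := (h2.sqrt hTt.ne').const_mul (-2)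
        refine h3.congr_deriv ?_
        have := (Real.sqrt_pos.2 hTt).ne'
        field_simp
      · intro t ht
        have hTt : 0 < T - t := sub_pos.2 ht.2
        positivity
    exact h1.const_mul C
  have hfin2 : ∫⁻ t in Ico t₀ T, ⨆ x, ENNReal.ofReal (nrm (vort (u t) x)) < ∞ := by
    have h1 : ∫⁻ t in Ico t₀ T, ⨆ x, ENNReal.ofReal (nrm (vort (u t) x))
        ≤ ∫⁻ t in Ico t₀ T, ENNReal.ofReal (C * (1 / Real.sqrt (T - t))) := by
      refine setLIntegral_mono' measurableSet_Ico fun t ht => ?_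
      exact iSup_le fun x => ENNReal.ofReal_le_ofReal (hmain t ht x)
    refine h1.trans_lt ?_
    have h2 : IntegrableOn (fun t => C * (1 / Real.sqrt (T - t))) (Ico t₀ T) := by
      rw [integrableOn_Ico_iff_integrableOn_Ioo, ← integrableOn_Ioc_iff_integrableOn_Ioo]
      exact hint
    exact h2.lintegral_lt_top
  have hfin1 : ∫⁻ t in Ioo 0 t₀, ⨆ x, ENNReal.ofReal (nrm (vort (u t) x)) < ∞ := by
    have h1 : ∫⁻ t in Ioo 0 t₀, ⨆ x, ENNReal.ofReal (nrm (vort (u t) x))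
        ≤ ∫⁻ _t in Ioo 0 t₀, ENNReal.ofReal M' := by
      refine setLIntegral_mono' measurableSet_Ioo fun t ht => ?_
      exact iSup_le fun x => ENNReal.ofReal_le_ofReal (hM' t ⟨ht.1.le, ht.2.le⟩ x).1
    refine h1.trans_lt ?_
    rw [setLIntegral_const, Real.volume_Ioo]
    exact ENNReal.mul_lt_top ENNReal.ofReal_lt_top ENNReal.ofReal_lt_top
  unfold BKMFinite
  have hsplit : Ioo 0 T ⊆ Ioo 0 t₀ ∪ Ico t₀ T := by
    intro t ht
    by_cases h1 : t < t₀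
    · exact Or.inl ⟨ht.1, h1⟩
    · exact Or.inr ⟨not_lt.1 h1, ht.2⟩
  refine (lintegral_mono_set hsplit).trans_lt ?_
  refine (lintegral_union_le _ _ _).trans_lt ?_
  exact ENNReal.add_lt_top.2 ⟨hfin1, hfin2⟩

end Pool.Agent.L5helper86.ED
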