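import Pool.Agent.L5helper86.ED.S7

/-!
# The rate of a singularity with regularly directed vorticity
-/

set_option autoImplicit false

open MeasureTheory Set Filter
open scoped ENNReal NNReal Topology

namespace Pool.Agent.L5helper86.ED

open Pool.Agent.H708R2 Pool.Agent.H708R2.EulerSign Pool.Agent.H708R2.EulerTypeI Pool.Agent.W786.Dir
  Pool.Agent.W786.Max

variable {T : ℝ} {u : ℝ → V → V} {p : ℝ → V → ℝ}

/-- `(T - t) ^ s` -/
lemma hasDerivAt_pow {T t s : ℝ} (ht : t < T) :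
    HasDerivAt (fun r => (T - r) ^ s) (-(s * (T - t) ^ (s - 1))) t := by
  have h1 : HasDerivAt (fun r => T - r) (-1) t := by simpa using (hasDerivAt_id t).const_sub T
  have h2 := h1.rpow_const (p := s) (Or.inl (sub_pos.2 ht).ne')
  refine h2.congr_deriv ?_
  ring

/-- The differential inequality for a power of the maximum. -/
lemma key_ineq {q C g M b : ℝ} (hq : 0 < q) (hC : 0 < C) (hg : 0 < g) (hM : 0 ≤ M) (hb : 0 < b) :
    q / 2 * (M + 1) ^ (-(q / 2) - 1) * (2 * (C * (g + b * Real.sqrt M ^ q) * M))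
      ≤ q * C * g * (M + 1) ^ (-(q / 2)) + q * C * b := by
  have h1 : 0 < M + 1 := by linarith
  have h2 : 0 < (M + 1) ^ (-(q / 2)) := Real.rpow_pos_of_pos h1 _
  have e1 : (M + 1) ^ (-(q / 2) - 1) = (M + 1) ^ (-(q / 2)) / (M + 1) :=
    Real.rpow_sub_one h1.ne' _
  have e2 : Real.sqrt M ^ q = M ^ (q / 2) := by
    rw [Real.sqrt_eq_rpow, ← Real.rpow_mul hM]
    congr 1
    ring
  have h3 : M ^ (q / 2) ≤ (M + 1) ^ (q / 2) := Real.rpow_le_rpow hM (by linarith) (by positivity)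
  have h4 : (M + 1) ^ (-(q / 2)) * M ^ (q / 2) ≤ 1 := by
    calc (M + 1) ^ (-(q / 2)) * M ^ (q / 2) ≤ (M + 1) ^ (-(q / 2)) * (M + 1) ^ (q / 2) := by gcongr
      _ = 1 := by rw [← Real.rpow_add h1, neg_add_cancel, Real.rpow_zero]
  have h5 : M / (M + 1) ≤ 1 := (div_le_one h1).2 (by linarith)
  have h6 : 0 ≤ M / (M + 1) := by positivity
  have h7 : 0 ≤ M ^ (q / 2) := Real.rpow_nonneg hM _
  rw [e1, e2]
  set z := (M + 1) ^ (-(q / 2)) with hz
  set y := M ^ (q / 2) with hy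
  calc q / 2 * (z / (M + 1)) * (2 * (C * (g + b * y) * M))
      = M / (M + 1) * (q * C * g * z + q * C * b * (z * y)) := by field_simp
    _ ≤ 1 * (q * C * g * z + q * C * b * (z * y)) := by
        refine mul_le_mul_of_nonneg_right h5 ?_
        positivity
    _ ≤ q * C * g * z + q * C * b * 1 := by
        rw [one_mul]
        gcongr
    _ = _ := by ring

/-- The comparison of the maximum at two times. -/
lemma two_times {β : ℝ} (hβ0 : 0 < β) (hβ1 : β ≤ 1) (h : IsC2Solution T u p)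
    {G : ℝ → ℝ} {E A σ t₀ : ℝ} (ht₀ : 0 < t₀) (hE : 0 < E) (hE0 : en2 (u 0) ≤ E) (hA : 0 < A)
    (hσ0 : 0 ≤ σ) (hσ : σ < 2 / 5)
    (hG : ∀ t ∈ Ico t₀ T, 1 ≤ G t ∧ G t ≤ A * (T - t) ^ (-σ) ∧
      ∃ x, IsMaxPt u t x ∧ Coh β (G t) (u t) x) :
    ∃ B : ℝ, 0 < B ∧ ∃ D : ℝ, 0 < D ∧ ∀ a ∈ Ico t₀ T, ∀ b ∈ Ico a T,
      (Mx u a + 1) ^ (-((1 - β / 2) / 2)) ≤
        D * (Mx u b + 1) ^ (-((1 - β / 2) / 2)) + B * (T - a) ^ (1 - 5 * σ * β / 4) := by
  set q := 1 - β / 2 with hq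
  have hq0 : 0 < q := by rw [hq]; linarith
  have hC := CC_pos hβ0
  set C := CC β with hCdef
  set κ := Real.sqrt E * A ^ (5 / 2 : ℝ) with hκ
  have hκ0 : 0 < κ := by
    have h1 : 0 < Real.sqrt E := Real.sqrt_pos.2 hE
    have h2 : (0 : ℝ) < A ^ (5 / 2 : ℝ) := Real.rpow_pos_of_pos hA _
    positivity
  have hκβ : 0 < κ ^ (β / 2) := Real.rpow_pos_of_pos hκ0 _
  set μ := 1 - 5 / 2 * σ with hμ
  have hμ0 : 0 < μ := by rw [hμ]; linarith
  set ν := 1 - 5 * σ * β / 4 with hν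
  have hν0 : 0 < ν := by
    rw [hν]
    nlinarith
  -- the frequency
  have hfr : ∀ t ∈ Ico t₀ T, fr E (G t) ≤ κ * (T - t) ^ (μ - 1) := by
    intro t ht
    obtain ⟨h1, h2, -⟩ := hG t ht
    have hτ : 0 < T - t := sub_pos.2 ht.2
    have hG0 : 0 < G t := by linarith
    rw [fr_eq hE hG0]
    have h3 : G t ^ (5 / 2 : ℝ) ≤ (A * (T - t) ^ (-σ)) ^ (5 / 2 : ℝ) :=
      Real.rpow_le_rpow hG0.le h2 (by norm_num)
    rw [Real.mul_rpow hA.le (Real.rpow_pos_of_pos hτ _).le, ← Real.rpow_mul hτ.le,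
      show -σ * (5 / 2) = μ - 1 by rw [hμ]; ring] at h3
    calc Real.sqrt E * G t ^ (5 / 2 : ℝ)
        ≤ Real.sqrt E * (A ^ (5 / 2 : ℝ) * (T - t) ^ (μ - 1)) := by gcongr
      _ = _ := by rw [hκ]; ring
  -- the weight
  set a₀ : ℝ → ℝ := fun t => -(q * C * κ / μ * (T - t) ^ μ) with ha₀
  have ha₀d : ∀ t, t < T → HasDerivAt a₀ (q * C * (κ * (T - t) ^ (μ - 1))) t := by
    intro t ht
    have h1 := ((hasDerivAt_pow (s := μ) ht).const_mul (q * C * κ / μ)).neg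
    refine h1.congr_deriv ?_
    field_simp
  have ha₀0 : ∀ t, t < T → a₀ t ≤ 0 := by
    intro t ht
    have : 0 < (T - t) ^ μ := Real.rpow_pos_of_pos (sub_pos.2 ht) _
    simp only [ha₀]
    rw [neg_nonpos]
    positivity
  have ha₀m : ∀ s t, s ≤ t → t < T → a₀ s ≤ a₀ t := by
    intro s t hst ht
    simp only [ha₀]
    rw [neg_le_neg_iff]
    have h1 : (T - t) ^ μ ≤ (T - s) ^ μ :=
      Real.rpow_le_rpow (sub_pos.2 ht).le (by linarith) hμ0.le
    gcongr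
  set Φ : ℝ → ℝ := fun y => -(y + 1) ^ (-(q / 2)) with hΦ
  have hΦm : MonotoneOn Φ (Ici 0) := by
    intro y hy z _ hyz
    have hy0 : (0 : ℝ) ≤ y := hy
    simp only [hΦ]
    rw [neg_le_neg_iff]
    exact Real.rpow_le_rpow_of_nonpos (by linarith) (by linarith) (by linarith)
  have hΦd : ∀ y : ℝ, 0 ≤ y → HasDerivAt Φ (q / 2 * (y + 1) ^ (-(q / 2) - 1)) y := by
    intro y hy
    have h1 : HasDerivAt (fun y => y + 1) 1 y := (hasDerivAt_id y).add_const 1
    have h2 := (h1.rpow_const (p := -(q / 2)) (Or.inl (by linarith))).neg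
    refine h2.congr_deriv ?_
    ring
  have hz1 : ∀ t, 0 < (Mx u t + 1) ^ (-(q / 2)) ∧ (Mx u t + 1) ^ (-(q / 2)) ≤ 1 := by
    intro t
    have h1 := Mx_nonneg (u := u) t
    exact ⟨Real.rpow_pos_of_pos (by linarith) _,
      Real.rpow_le_one_of_one_le_of_nonpos (by linarith) (by linarith)⟩
  refine ⟨q * C * κ ^ (β / 2) / ν * Real.exp (-a₀ t₀), by positivity, Real.exp (-a₀ t₀),
    Real.exp_pos _, fun a ha b hb => ?_⟩
  obtain ⟨K, hK0, hK⟩ := Mx_growth h hb.2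
  set L : ℝ → ℝ := fun t => Φ (Mx u t) * Real.exp (a₀ t) with hL
  have hLip : ∀ s ∈ Icc a b, ∀ t ∈ Icc a b, s ≤ t → L t - L s ≤ q * K * (t - s) := by
    intro s hs t ht hst
    have hs0 : 0 ≤ s := ht₀.le.trans (ha.1.trans hs.1)
    have h2 := hK s ⟨hs0, hs.2⟩ t ⟨hs0.trans hst, ht.2⟩ hst
    have hMs := Mx_nonneg (u := u) s
    have hMt := Mx_nonneg (u := u) t
    have h0 : 0 ≤ t - s := by linarith
    have h3 : 1 ≤ Real.exp (2 * K * (t - s)) := Real.one_le_exp (by positivity)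
    have h4 : Mx u t + 1 ≤ (Mx u s + 1) * Real.exp (2 * K * (t - s)) := by nlinarith
    have h5 : ((Mx u s + 1) * Real.exp (2 * K * (t - s))) ^ (-(q / 2))
        ≤ (Mx u t + 1) ^ (-(q / 2)) :=
      Real.rpow_le_rpow_of_nonpos (by linarith) h4 (by linarith)
    rw [Real.mul_rpow (by linarith) (Real.exp_pos _).le, ← Real.exp_mul,
      show 2 * K * (t - s) * -(q / 2) = -(q * K * (t - s)) by ring] at h5
    have h6 := ha₀m s t hst (ht.2.trans_lt hb.2)
    have h7 := ha₀0 s (hs.2.trans_lt hb.2)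
    have h8 := Real.add_one_le_exp (-(q * K * (t - s)))
    obtain ⟨h9, h10⟩ := hz1 s
    simp only [hL, hΦ]
    set zs := (Mx u s + 1) ^ (-(q / 2)) with hzs
    set zt := (Mx u t + 1) ^ (-(q / 2)) with hzt
    have h11 : Real.exp (a₀ s) ≤ Real.exp (a₀ t) := Real.exp_le_exp.2 h6
    have h12 : Real.exp (a₀ s) ≤ 1 := Real.exp_le_one_iff.2 h7
    have h13 : 0 < Real.exp (a₀ s) := Real.exp_pos _
    have h14 : 0 ≤ q * K * (t - s) := by positivity
    have h15 : 0 < Real.exp (-(q * K * (t - s))) := Real.exp_pos _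
    have h16 : zs * Real.exp (-(q * K * (t - s))) * Real.exp (a₀ s) ≤ zt * Real.exp (a₀ t) := by
      have : 0 < zt := (hz1 t).1
      gcongr
    have h17 : zs * Real.exp (a₀ s) * (1 - q * K * (t - s))
        ≤ zs * Real.exp (-(q * K * (t - s))) * Real.exp (a₀ s) := by
      have h18 : 1 - q * K * (t - s) ≤ Real.exp (-(q * K * (t - s))) := by linarith
      calc zs * Real.exp (a₀ s) * (1 - q * K * (t - s))
          ≤ zs * Real.exp (a₀ s) * Real.exp (-(q * K * (t - s))) := by gcongr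
        _ = _ := by ring
    have h19 : zs * Real.exp (a₀ s) ≤ 1 := by
      calc zs * Real.exp (a₀ s) ≤ 1 * 1 := by gcongr
        _ = 1 := one_mul 1
    have h20 : zs * Real.exp (a₀ s) * (q * K * (t - s)) ≤ 1 * (q * K * (t - s)) := by gcongr
    nlinarith
  set r : ℝ → ℝ := fun t => q * C * κ ^ (β / 2) * (T - t) ^ (ν - 1) with hr
  have hrd : ∀ t, t < T → HasDerivAt (fun t => -(q * C * κ ^ (β / 2) / ν * (T - t) ^ ν)) (r t) t := by
    intro t ht
    have h1 := ((hasDerivAt_pow (s := ν) ht).const_mul (q * C * κ ^ (β / 2) / ν)).neg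
    refine h1.congr_deriv ?_
    simp only [hr]
    field_simp
  have hri : IntervalIntegrable r volume a b := by
    refine ContinuousOn.intervalIntegrable ?_
    rw [uIcc_of_le hb.1]
    refine continuousOn_const.mul ?_
    exact ContinuousOn.rpow_const (by fun_prop) fun t ht =>
      Or.inl (sub_pos.2 (ht.2.trans_lt hb.2)).ne'
  have hgrow := growth_of_ae (L := L) (r := r) hb.1 hLip hri (by
    refine Eventually.of_forall fun t ht d hd => ?_
    have htT : t < T := ht.2.trans hb.2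
    have htI : t ∈ Ico t₀ T := ⟨ha.1.trans ht.1.le, htT⟩
    have ht0 : t ∈ Ioo 0 T := ⟨ht₀.trans_le htI.1, htT⟩
    obtain ⟨hG1, hG2, x, hx, hcoh⟩ := hG t htI
    have hτ : 0 < T - t := sub_pos.2 htT
    have hW0 := Wq_nonneg (u := u) t x
    have hMW : Mx u t = Wq u t x := Mx_eq h.sol ⟨ht0.1.le, htT⟩ hx
    -- the derivative of the power
    have hexp := (ha₀d t htT).exp
    have hdΦ : HasDerivAt (fun s => Φ (Mx u s))
        (d * Real.exp (-a₀ t) + L t * (Real.exp (-a₀ t)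
          * (-(q * C * (κ * (T - t) ^ (μ - 1)))))) t := by
      have h1 := hd.mul (ha₀d t htT).neg.exp
      refine h1.congr_of_eventuallyEq (Eventually.of_forall fun s => ?_)
      simp only [hL, Pi.mul_apply, Pi.neg_apply]
      rw [mul_assoc, ← Real.exp_add, add_neg_cancel, Real.exp_zero, mul_one]
    have h1 := deriv_le h ht0 hx hΦm (hΦd _ hW0) hdΦ
    have h2 := rate_dyn hβ0 hβ1 h ht0 hx hG1 hE hE0 hcoh
    have h3 := hfr t htI
    have hfr0 := fr_pos hE hG1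
    set g := κ * (T - t) ^ (μ - 1) with hg
    have hg0 : 0 < g := hfr0.trans_le h3
    have hgβ : 0 < g ^ (β / 2) := Real.rpow_pos_of_pos hg0 _
    have hsq : nrm (vort (u t) x) = Real.sqrt (Wq u t x) := by
      rw [Wq_eq, Real.sqrt_sq (nrm_nonneg _)]
    have h4 : Pq u t x ≤ C * (g + g ^ (β / 2) * Real.sqrt (Wq u t x) ^ q) * Wq u t x := by
      refine h2.trans (mul_le_mul_of_nonneg_right ?_ hW0)
      rw [hsq]
      have h5 : fr E (G t) ^ (β / 2) ≤ g ^ (β / 2) :=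
        Real.rpow_le_rpow hfr0.le h3 (by positivity)
      have h6 : 0 ≤ Real.sqrt (Wq u t x) ^ q := Real.rpow_nonneg (Real.sqrt_nonneg _) _
      gcongr
    have h5 : q / 2 * (Wq u t x + 1) ^ (-(q / 2) - 1)
          * (2 * (vort (u t) x ⬝ᵥ (grad (u t) x).mulVec (vort (u t) x)))
        ≤ q / 2 * (Wq u t x + 1) ^ (-(q / 2) - 1)
          * (2 * (C * (g + g ^ (β / 2) * Real.sqrt (Wq u t x) ^ q) * Wq u t x)) := by
      have h6 : 0 < (Wq u t x + 1) ^ (-(q / 2) - 1) := Real.rpow_pos_of_pos (by linarith) _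
      have h7 : vort (u t) x ⬝ᵥ (grad (u t) x).mulVec (vort (u t) x)
        ≤ C * (g + g ^ (β / 2) * Real.sqrt (Wq u t x) ^ q) * Wq u t x := h4
      gcongr
    have h6 := h1.trans (h5.trans (key_ineq hq0 hC hg0 hW0 hgβ))
    have h7 : L t * (Real.exp (-a₀ t) * (-(q * C * g)))
        = (Wq u t x + 1) ^ (-(q / 2)) * (q * C * g) := by
      simp only [hL, hΦ, hMW]
      have e1 : Real.exp (a₀ t) * Real.exp (-a₀ t) = 1 := by
        rw [← Real.exp_add, add_neg_cancel, Real.exp_zero]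
      calc -(Wq u t x + 1) ^ (-(q / 2)) * Real.exp (a₀ t) * (Real.exp (-a₀ t) * (-(q * C * g)))
          = (Wq u t x + 1) ^ (-(q / 2)) * (q * C * g) * (Real.exp (a₀ t) * Real.exp (-a₀ t)) := by
            ring
        _ = _ := by rw [e1, mul_one]
    rw [h7] at h6
    have h8 : d * Real.exp (-a₀ t) ≤ q * C * g ^ (β / 2) := by linarith
    have h9 : q * C * g ^ (β / 2) = r t := by
      simp only [hr, hg]
      rw [Real.mul_rpow hκ0.le (Real.rpow_pos_of_pos hτ _).le, ← Real.rpow_mul hτ.le,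
        show (μ - 1) * (β / 2) = ν - 1 by rw [hμ, hν]; ring]
      ring
    rw [h9] at h8
    have h10 : 0 ≤ r t := by rw [← h9]; positivity
    have h11 : 1 ≤ Real.exp (-a₀ t) := Real.one_le_exp (by linarith [ha₀0 t htT])
    by_contra hcon
    push Not at hcon
    nlinarith)
  have hint : ∫ t in a..b, r t = -(q * C * κ ^ (β / 2) / ν * (T - b) ^ ν)
      - -(q * C * κ ^ (β / 2) / ν * (T - a) ^ ν) := by
    refine intervalIntegral.integral_eq_sub_of_hasDerivAt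
      (f := fun t => -(q * C * κ ^ (β / 2) / ν * (T - t) ^ ν)) ?_ hri
    intro t ht
    rw [uIcc_of_le hb.1] at ht
    exact hrd t (ht.2.trans_lt hb.2)
  rw [hint] at hgrow
  have h1 : 0 < (T - b) ^ ν := Real.rpow_pos_of_pos (sub_pos.2 hb.2) _
  have h1a : 0 < (T - a) ^ ν := Real.rpow_pos_of_pos (sub_pos.2 ha.2) _
  have h2 : 0 < q * C * κ ^ (β / 2) / ν * (T - b) ^ ν := by positivity
  have h3 := ha₀0 b hb.2
  have h4 : Real.exp (a₀ b) ≤ 1 := Real.exp_le_one_iff.2 h3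
  have h5 : Real.exp (a₀ t₀) ≤ Real.exp (a₀ a) := Real.exp_le_exp.2 (ha₀m _ _ ha.1 ha.2)
  obtain ⟨h6, h7⟩ := hz1 a
  obtain ⟨h8, h9⟩ := hz1 b
  simp only [hL, hΦ] at hgrow
  set za := (Mx u a + 1) ^ (-(q / 2)) with hza
  set zb := (Mx u b + 1) ^ (-(q / 2)) with hzb
  have h10 : za * Real.exp (a₀ t₀) ≤ zb + q * C * κ ^ (β / 2) / ν * (T - a) ^ ν := by
    have h11 : za * Real.exp (a₀ t₀) ≤ za * Real.exp (a₀ a) := by gcongr
    have h12 : zb * Real.exp (a₀ b) ≤ zb * 1 := by gcongr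
    linarith
  have e1 : Real.exp (a₀ t₀) * Real.exp (-a₀ t₀) = 1 := by
    rw [← Real.exp_add, add_neg_cancel, Real.exp_zero]
  have h11 := mul_le_mul_of_nonneg_right h10 (Real.exp_pos (-a₀ t₀)).le
  calc za = za * Real.exp (a₀ t₀) * Real.exp (-a₀ t₀) := by rw [mul_assoc, e1, mul_one]
    _ ≤ (zb + q * C * κ ^ (β / 2) / ν * (T - a) ^ ν) * Real.exp (-a₀ t₀) := h11
    _ = _ := by ring

/-- **The rate of a singularity.** -/
theorem sing_rate {β : ℝ} (hβ0 : 0 < β) (hβ1 : β ≤ 1) (hT : 0 < T) (h : IsC2Solution T u p)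
    {G : ℝ → ℝ} {A σ : ℝ} (hσ0 : 0 ≤ σ) (hσ : σ < 2 / 5)
    (hG : ∀ᶠ t in 𝓝[<] T, 1 ≤ G t ∧ G t ≤ A * (T - t) ^ (-σ) ∧
      ∃ x, IsMaxPt u t x ∧ Coh β (G t) (u t) x) :
    BKMFinite T u ∨ ∃ c : ℝ, 0 < c ∧ ∀ᶠ t in 𝓝[<] T, ∃ x,
      c / (T - t) ^ ((4 - 5 * σ * β) / (4 - 2 * β)) ≤ nrm (vort (u t) x) := by
  obtain ⟨t₀, ht₀, hP⟩ := exists_start hT hG 0
  have hP' : ∀ t ∈ Ico t₀ T, 1 ≤ G t ∧ G t ≤ A * (T - t) ^ (-σ) ∧
      ∃ x, IsMaxPt u t x ∧ Coh β (G t) (u t) x := fun t ht => (hP t ht).1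
  have hA : 0 < A := by
    obtain ⟨h1, h2, -⟩ := hP' t₀ ⟨le_rfl, ht₀.2⟩
    have h3 : 0 < (T - t₀) ^ (-σ) := Real.rpow_pos_of_pos (sub_pos.2 ht₀.2) _
    by_contra hcon
    push Not at hcon
    nlinarith
  set q := 1 - β / 2 with hq
  have hq0 : 0 < q := by rw [hq]; linarith
  set ν := 1 - 5 * σ * β / 4 with hν
  have hν0 : 0 < ν := by
    rw [hν]
    nlinarith
  obtain ⟨B, hB, D, hD, hBD⟩ := two_times hβ0 hβ1 h ht₀.1 (E := en2 (u 0) + 1)
    (by have := en2_nonneg (v := u 0); linarith) (by linarith) hA hσ0 hσ hP'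
  by_cases hbd : ∃ M : ℝ, ∀ t ∈ Ico t₀ T, Mx u t ≤ M
  · left
    obtain ⟨M, hM⟩ := hbd
    refine bkm_of_bound h.sol ⟨ht₀.1.le, ht₀.2⟩ (M := Real.sqrt M) fun t ht x => ?_
    refine Real.le_sqrt_of_sq_le ?_
    rw [← Wq_eq]
    exact (Wq_le h.sol ⟨ht₀.1.le.trans ht.1, ht.2⟩ x).trans (hM t ht)
  right
  push Not at hbd
  -- the bound of the power at every time
  have hz : ∀ a ∈ Ico t₀ T, (Mx u a + 1) ^ (-(q / 2)) ≤ B * (T - a) ^ ν := by
    intro a ha
    refine le_of_forall_pos_le_add fun ε hε => ?_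
    -- a bound up to time `a`
    obtain ⟨W, hW0, hW⟩ := vort_bound h.sol ha.2
    obtain ⟨b, hb, hbM⟩ := hbd (max (W ^ 2) ((ε / D) ^ (-(2 / q))))
    have hab : a ≤ b := by
      by_contra hcon
      push Not at hcon
      have h1 : Mx u b ≤ W ^ 2 :=
        Mx_le fun y => (hW b ⟨ht₀.1.le.trans hb.1, hcon.le⟩ y).1
      exact absurd (hbM.trans_le h1) (not_lt.2 (le_max_left _ _))
    have h1 := hBD a ha b ⟨hab, hb.2⟩
    have h2 : (Mx u b + 1) ^ (-(q / 2)) ≤ ε / D := by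
      have hεD : 0 < ε / D := by positivity
      have h3 : (ε / D) ^ (-(2 / q)) ≤ Mx u b + 1 := by
        have := (le_max_right (W ^ 2) ((ε / D) ^ (-(2 / q)))).trans hbM.le
        linarith
      have h4 := Real.rpow_le_rpow_of_nonpos (Real.rpow_pos_of_pos hεD _) h3
        (show -(q / 2) ≤ 0 by linarith)
      rw [← Real.rpow_mul hεD.le, show -(2 / q) * -(q / 2) = 1 by field_simp,
        Real.rpow_one] at h4
      exact h4
    have h3 : D * (Mx u b + 1) ^ (-(q / 2)) ≤ ε := by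
      calc D * (Mx u b + 1) ^ (-(q / 2)) ≤ D * (ε / D) := by gcongr
        _ = ε := by field_simp
    linarith
  -- the lower bound of the maximum
  have e0 : (4 - 5 * σ * β) / (4 - 2 * β) = ν / q := by
    rw [hν, hq, div_eq_div_iff (by linarith) (by linarith)]
    ring
  rw [e0]
  refine ⟨Real.sqrt (B ^ (-(2 / q)) / 2), Real.sqrt_pos.2 (by
    have := Real.rpow_pos_of_pos hB (-(2 / q)); positivity), ?_⟩
  have hlim : ∀ᶠ t in 𝓝[<] T, B * (T - t) ^ ν ≤ (1 / 2) ^ (q / 2) := by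
    have h1 : Tendsto (fun t => B * (T - t) ^ ν) (𝓝[<] T) (𝓝 (B * 0)) := by
      refine Tendsto.const_mul B ?_
      have h2 : Tendsto (fun t => T - t) (𝓝[<] T) (𝓝 0) := by
        have h3 : Tendsto (fun t => T - t) (𝓝 T) (𝓝 (T - T)) := tendsto_const_nhds.sub tendsto_id
        rw [sub_self] at h3
        exact h3.mono_left nhdsWithin_le_nhds
      have h4 := h2.rpow_const (p := ν) (Or.inr hν0.le)
      rwa [Real.zero_rpow hν0.ne'] at h4
    rw [mul_zero] at h1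
    exact h1.eventually_le_const (Real.rpow_pos_of_pos (by norm_num) _)
  filter_upwards [Ico_mem_nhdsLT ht₀.2, hlim] with t ht htl
  obtain ⟨x, hx⟩ := exists_isMaxPt h.sol ⟨ht₀.1.le.trans ht.1, ht.2⟩
  refine ⟨x, ?_⟩
  have hτ : 0 < T - t := sub_pos.2 ht.2
  have hτν : 0 < (T - t) ^ ν := Real.rpow_pos_of_pos hτ _
  have hM0 := Mx_nonneg (u := u) t
  have h1 := hz t ht
  have hpos : 0 < (Mx u t + 1) ^ (-(q / 2)) := Real.rpow_pos_of_pos (by linarith) _
  -- `(B (T - t) ^ ν) ^ (-(2 / q)) ≤ M + 1`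
  have h2 : (B * (T - t) ^ ν) ^ (-(2 / q)) ≤ Mx u t + 1 := by
    have h3 := Real.rpow_le_rpow_of_nonpos hpos h1
      (show -(2 / q) ≤ 0 by rw [neg_nonpos]; positivity)
    rwa [← Real.rpow_mul (by linarith), show -(q / 2) * -(2 / q) = 1 by field_simp,
      Real.rpow_one] at h3
  have h3 : 2 ≤ (B * (T - t) ^ ν) ^ (-(2 / q)) := by
    have h4 := Real.rpow_le_rpow_of_nonpos (show 0 < B * (T - t) ^ ν by positivity) htl
      (show -(2 / q) ≤ 0 by rw [neg_nonpos]; positivity)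
    rw [← Real.rpow_mul (by norm_num), show q / 2 * -(2 / q) = -1 by field_simp,
      Real.rpow_neg_one] at h4
    norm_num at h4
    exact h4
  have h4 : (B * (T - t) ^ ν) ^ (-(2 / q)) / 2 ≤ Mx u t := by linarith
  have h5 : nrm (vort (u t) x) = Real.sqrt (Mx u t) := by
    rw [Mx_eq h.sol ⟨ht₀.1.le.trans ht.1, ht.2⟩ hx, Wq_eq, Real.sqrt_sq (nrm_nonneg _)]
  rw [h5]
  have h6 : Real.sqrt (B ^ (-(2 / q)) / 2) / (T - t) ^ (ν / q)
      = Real.sqrt ((B * (T - t) ^ ν) ^ (-(2 / q)) / 2) := by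
    have h7 : (T - t) ^ (ν / q) = Real.sqrt (((T - t) ^ (ν / q)) ^ 2) :=
      (Real.sqrt_sq (Real.rpow_pos_of_pos hτ _).le).symm
    rw [h7, ← Real.sqrt_div (by have := Real.rpow_pos_of_pos hB (-(2 / q)); positivity)]
    congr 1
    rw [Real.mul_rpow hB.le hτν.le, ← Real.rpow_mul hτ.le, ← Real.rpow_natCast,
      ← Real.rpow_mul hτ.le, show ν * -(2 / q) = -(ν / q * (2 : ℕ)) by push_cast; ring,
      Real.rpow_neg hτ.le]
    field_simp
  rw [h6]
  exact Real.sqrt_le_sqrt h4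

end Pool.Agent.L5helper86.ED
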